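import Mathlib

set_option autoImplicit false

/-!
Gaussian posets.
-/

namespace Pool.Agent.W_MP_448cb3_co

open scoped Classical in
/-- The polynomial `U_m(P,q)`: the sum of `q ^ |σ|` over all order preserving maps
`σ : P → {0, 1, ..., m}`. -/
noncomputable def U (P : Type) [PartialOrder P] [Fintype P] (m : ℕ) : Polynomial ℤ :=
  ∑ σ ∈ (Finset.univ : Finset (P → Fin (m + 1))).filter (fun σ => ∀ x y, x ≤ y → σ x ≤ σ y),
    Polynomial.X ^ (∑ x, (σ x : ℕ))

/-- `P` is Gaussian: there are positive integers `h_1, ..., h_p`, where `p` is the number of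
elements of `P`, with `U_m(P,q) * ∏ (1 - q ^ h_i) = ∏ (1 - q ^ (m + h_i))` for all `m ≥ 0`. -/
def IsGaussian (P : Type) [PartialOrder P] [Fintype P] : Prop :=
  ∃ h : Fin (Fintype.card P) → ℕ, (∀ i, 0 < h i) ∧
    ∀ m : ℕ, U P m * ∏ i, (1 - Polynomial.X ^ (h i)) = ∏ i, (1 - Polynomial.X ^ (m + h i))

end Pool.Agent.W_MP_448cb3_co
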