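import Mathlib

set_option autoImplicit false

/-!
Counting series of sets of functions from a finite type to the natural numbers.
-/

namespace Pool.Agent.W_MP_448cb3_co

open Finset
open scoped Classical

noncomputable section

variable {P : Type} [Fintype P]

/-- The number of functions with total `n` and property `Q`. -/
def cnt (Q : (P → ℕ) → Prop) (n : ℕ) : ℕ :=
  ((Finset.piAntidiag (Finset.univ : Finset P) n).filter Q).card

/-- The counting series of the functions with property `Q`. -/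
def gf (Q : (P → ℕ) → Prop) : PowerSeries ℚ := PowerSeries.mk (fun n => (cnt Q n : ℚ))

lemma coeff_gf (Q : (P → ℕ) → Prop) (n : ℕ) : PowerSeries.coeff n (gf Q) = (cnt Q n : ℚ) := by
  simp [gf]

lemma mem_pa (g : P → ℕ) (n : ℕ) :
    g ∈ Finset.piAntidiag (Finset.univ : Finset P) n ↔ ∑ x, g x = n := by
  simp [Finset.mem_piAntidiag]

lemma cnt_congr {Q Q' : (P → ℕ) → Prop} (n : ℕ) (h : ∀ g : P → ℕ, ∑ x, g x = n → (Q g ↔ Q' g)) :
    cnt Q n = cnt Q' n := by
  unfold cnt
  congr 1
  ext g
  simp only [Finset.mem_filter, mem_pa]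
  constructor
  · rintro ⟨h1, h2⟩
    exact ⟨h1, (h g h1).1 h2⟩
  · rintro ⟨h1, h2⟩
    exact ⟨h1, (h g h1).2 h2⟩

lemma gf_congr {Q Q' : (P → ℕ) → Prop} (h : ∀ g : P → ℕ, (Q g ↔ Q' g)) :
    gf Q = gf Q' := by
  ext n
  rw [coeff_gf, coeff_gf, cnt_congr n (fun g _ => h g)]

lemma cnt_shift (v : P → ℕ) (Q Q' : (P → ℕ) → Prop)
    (h1 : ∀ g : P → ℕ, Q (g + v) ↔ Q' g) (h2 : ∀ g, Q g → v ≤ g) (n : ℕ) :
    cnt Q (n + ∑ x, v x) = cnt Q' n := by
  unfold cnt
  symm
  apply Finset.card_bij (fun g _ => g + v)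
  · intro g hg
    simp only [Finset.mem_filter, mem_pa] at hg ⊢
    refine ⟨?_, (h1 g).2 hg.2⟩
    simp [Finset.sum_add_distrib, hg.1]
  · intro g _ g' _ h
    exact add_right_cancel h
  · intro g hg
    simp only [Finset.mem_filter, mem_pa] at hg
    have hv := h2 g hg.2
    refine ⟨g - v, ?_, ?_⟩
    · have e : (g - v) + v = g := tsub_add_cancel_of_le hv
      simp only [Finset.mem_filter, mem_pa]
      constructor
      · have h3 : ∑ x, ((g - v) + v) x = n + ∑ x, v x := by rw [e]; exact hg.1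
        simp only [Pi.add_apply, Finset.sum_add_distrib] at h3
        omega
      · rw [← h1, e]; exact hg.2
    · exact tsub_add_cancel_of_le hv

lemma cnt_shift_lt (v : P → ℕ) (Q : (P → ℕ) → Prop)
    (h2 : ∀ g, Q g → v ≤ g) (n : ℕ) (hn : n < ∑ x, v x) :
    cnt Q n = 0 := by
  unfold cnt
  rw [Finset.card_eq_zero, Finset.filter_eq_empty_iff]
  intro g hg hQ
  rw [mem_pa] at hg
  have : ∑ x, v x ≤ ∑ x, g x := Finset.sum_le_sum (fun x _ => h2 g hQ x)
  omega

lemma gf_shift (v : P → ℕ) (Q Q' : (P → ℕ) → Prop)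
    (h1 : ∀ g : P → ℕ, Q (g + v) ↔ Q' g) (h2 : ∀ g, Q g → v ≤ g) :
    gf Q = PowerSeries.X ^ (∑ x, v x) * gf Q' := by
  ext n
  rw [PowerSeries.coeff_X_pow_mul']
  split_ifs with h
  · obtain ⟨k, rfl⟩ := Nat.exists_eq_add_of_le' h
    rw [coeff_gf, Nat.add_sub_cancel, coeff_gf, cnt_shift v Q Q' h1 h2]
  · rw [coeff_gf, cnt_shift_lt v Q h2 n (by omega)]
    simp

lemma gf_false (Q : (P → ℕ) → Prop) (h : ∀ g, ¬ Q g) : gf Q = 0 := by
  ext n
  rw [coeff_gf]
  have : cnt Q n = 0 := by
    unfold cnt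
    rw [Finset.card_eq_zero, Finset.filter_eq_empty_iff]
    intro g _ hQ
    exact h g hQ
  simp [this]

/-- The only function with total zero is zero. -/
lemma cnt_zero (Q : (P → ℕ) → Prop) : cnt Q 0 = if Q 0 then 1 else 0 := by
  unfold cnt
  have : Finset.piAntidiag (Finset.univ : Finset P) 0 = {0} := by
    ext g
    rw [mem_pa]
    simp [funext_iff]
  rw [this]
  split_ifs with h
  · simp [Finset.filter_singleton, h]
  · simp [Finset.filter_singleton, h]

/-- A function with total one is the indicator of a point. -/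
lemma cnt_one (Q : (P → ℕ) → Prop) :
    cnt Q 1 = ((Finset.univ : Finset P).filter (fun x => Q (Pi.single x 1))).card := by
  unfold cnt
  symm
  apply Finset.card_bij (fun x _ => (Pi.single x 1 : P → ℕ))
  · intro x hx
    simp only [Finset.mem_filter, mem_pa, Finset.mem_univ, true_and] at hx ⊢
    exact ⟨by simp, hx⟩
  · intro x _ y _ h
    by_contra hne
    have := congrFun h x
    simp [hne] at this
  · intro g hg
    simp only [Finset.mem_filter, mem_pa, Finset.mem_univ, true_and] at hg ⊢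
    obtain ⟨hs, hQ⟩ := hg
    have hex : ∃ x, g x ≠ 0 := by
      by_contra hcon
      push Not at hcon
      simp [hcon] at hs
    obtain ⟨x, hx⟩ := hex
    have e1 : ∑ y, g y = g x + ∑ y ∈ Finset.univ.erase x, g y := by
      rw [Finset.add_sum_erase _ _ (Finset.mem_univ x)]
    have e2 : g = Pi.single x 1 := by
      funext y
      by_cases hy : y = x
      · subst hy
        simp
        omega
      · have h3 : g y ≤ ∑ y ∈ Finset.univ.erase x, g y :=
          Finset.single_le_sum (f := g) (fun _ _ => Nat.zero_le _) (by simp [hy])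
        simp [hy]
        omega
    exact ⟨x, by rw [← e2]; exact hQ, e2.symm⟩

end

end Pool.Agent.W_MP_448cb3_co
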