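import Mathlib
import Pool.Agent.W_MP_448cb3_co.Gf

set_option autoImplicit false

/-!
The signed sum over filters and the key identity.
-/

namespace Pool.Agent.W_MP_448cb3_co

open Finset
open scoped Classical

noncomputable section

variable {P : Type} [Fintype P] [PartialOrder P]

/-- `F` is a filter, `g` strictly reverses the order on `F` and preserves it off `F`. -/
def Good (F : Finset P) (g : P → ℕ) : Prop :=
  (∀ x ∈ F, ∀ y, x ≤ y → y ∈ F) ∧ (∀ x ∈ F, ∀ y ∈ F, x < y → g y < g x) ∧
    (∀ x, x ∉ F → ∀ y, y ∉ F → x ≤ y → g x ≤ g y)

/-- Good pairs with large values on `F`. -/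
def Allowed (m : ℕ) (F : Finset P) (g : P → ℕ) : Prop := Good F g ∧ ∀ x ∈ F, m < g x

omit [Fintype P] in
lemma allowed_insert (m : ℕ) (F : Finset P) (g : P → ℕ) (x : P) (hx : x ∉ F)
    (h1 : ∀ y, g y ≤ g x) (h2 : ∀ y, x < y → g y < g x) (hm : m < g x) :
    Allowed m F g ↔ Allowed m (insert x F) g := by
  constructor
  · rintro ⟨⟨a1, a2, a3⟩, a4⟩
    refine ⟨⟨?_, ?_, ?_⟩, ?_⟩
    · intro u hu v huv
      rw [Finset.mem_insert] at hu ⊢
      rcases hu with rfl | hu
      · by_cases huv' : v = u
        · exact Or.inl huv'
        · right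
          by_contra hv
          have := a3 u hx v hv huv
          have := h2 v (lt_of_le_of_ne huv (Ne.symm huv'))
          omega
      · exact Or.inr (a1 u hu v huv)
    · intro u hu v hv huv
      rw [Finset.mem_insert] at hu hv
      rcases hu with rfl | hu
      · exact h2 v huv
      · rcases hv with rfl | hv
        · exact absurd (a1 u hu v huv.le) hx
        · exact a2 u hu v hv huv
    · intro u hu v hv huv
      rw [Finset.mem_insert, not_or] at hu hv
      exact a3 u hu.2 v hv.2 huv
    · intro u hu
      rw [Finset.mem_insert] at hu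
      rcases hu with rfl | hu
      · exact hm
      · exact a4 u hu
  · rintro ⟨⟨a1, a2, a3⟩, a4⟩
    have hxF : x ∈ insert x F := Finset.mem_insert_self _ _
    have hFm : ∀ y, y ∈ F → y ∈ insert x F := fun y hy => Finset.mem_insert_of_mem hy
    refine ⟨⟨?_, ?_, ?_⟩, ?_⟩
    · intro u hu v huv
      have hv := a1 u (hFm u hu) v huv
      rw [Finset.mem_insert] at hv
      rcases hv with rfl | hv
      · exfalso
        have hne : u ≠ v := fun h => hx (h ▸ hu)
        have := a2 u (hFm u hu) v hxF (lt_of_le_of_ne huv hne)
        have := h1 u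
        omega
      · exact hv
    · intro u hu v hv huv
      exact a2 u (hFm u hu) v (hFm v hv) huv
    · intro u hu v hv huv
      by_cases hux : u = x
      · subst hux
        by_cases hvx : v = u
        · subst hvx; exact le_refl _
        · have hv2 := a1 u hxF v huv
          rw [Finset.mem_insert] at hv2
          rcases hv2 with h | h
          · exact absurd h hvx
          · exact absurd h hv
      · by_cases hvx : v = x
        · subst hvx
          exact h1 u
        · exact a3 u (by simp [hux, hu]) v (by simp [hvx, hv]) huv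
    · intro u hu
      exact a4 u (hFm u hu)

/-- The sign reversing involution. -/
lemma signed_sum (m : ℕ) (g : P → ℕ) :
    ∑ F : Finset P, (if Allowed m F g then (-1 : ℚ) ^ F.card else 0) =
      if (Monotone g ∧ ∀ x, g x ≤ m) then 1 else 0 := by
  by_cases hb : ∀ x, g x ≤ m
  · rw [Finset.sum_eq_single (∅ : Finset P)]
    · have : Allowed m (∅ : Finset P) g ↔ (Monotone g ∧ ∀ x, g x ≤ m) := by
        constructor
        · rintro ⟨⟨_, _, a3⟩, _⟩
          exact ⟨fun x y hxy => a3 x (by simp) y (by simp) hxy, hb⟩
        · rintro ⟨hmono, _⟩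
          refine ⟨⟨by simp, by simp, fun x _ y _ hxy => hmono hxy⟩, by simp⟩
      simp [this]
    · intro F _ hF
      obtain ⟨x, hx⟩ := Finset.nonempty_iff_ne_empty.2 hF
      rw [if_neg]
      rintro ⟨_, a4⟩
      have := a4 x hx
      have := hb x
      omega
    · simp
  · rw [if_neg (fun h => hb h.2)]
    push Not at hb
    obtain ⟨x0, hx0⟩ := hb
    -- choose the maximum value, then a maximal element
    obtain ⟨x1, _, hx1⟩ := Finset.exists_max_image (Finset.univ : Finset P) g ⟨x0, Finset.mem_univ _⟩
    have hS : ((Finset.univ : Finset P).filter (fun x => g x = g x1)).Nonempty :=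
      ⟨x1, by simp⟩
    obtain ⟨x, hxS, hxmax⟩ := Finset.exists_maximal hS
    simp only [Finset.mem_filter, Finset.mem_univ, true_and] at hxS
    have h1 : ∀ y, g y ≤ g x := fun y => by rw [hxS]; exact hx1 y (Finset.mem_univ _)
    have h2 : ∀ y, x < y → g y < g x := by
      intro y hxy
      rcases lt_or_eq_of_le (h1 y) with h | h
      · exact h
      · exfalso
        have := hxmax (by simp [h, hxS] : y ∈ (Finset.univ : Finset P).filter (fun x => g x = g x1)) hxy.le
        exact absurd (lt_of_lt_of_le hxy this) (lt_irrefl _)
    have hm : m < g x := lt_of_lt_of_le hx0 (h1 x0)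
    apply Finset.sum_involution (fun F _ => if x ∈ F then F.erase x else insert x F)
    · intro F _
      by_cases hxF : x ∈ F
      · simp only [hxF, if_true]
        have e : insert x (F.erase x) = F := Finset.insert_erase hxF
        have h3 := allowed_insert m (F.erase x) g x (by simp) h1 h2 hm
        rw [e] at h3
        have hc : F.card = (F.erase x).card + 1 := by
          rw [Finset.card_erase_of_mem hxF]
          have : 0 < F.card := Finset.card_pos.2 ⟨x, hxF⟩
          omega
        by_cases hA : Allowed m F g
        · rw [if_pos hA, if_pos (h3.2 hA), hc, pow_succ]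
          ring
        · rw [if_neg hA, if_neg (fun h => hA (h3.1 h))]
          ring
      · simp only [hxF, if_false]
        have h3 := allowed_insert m F g x hxF h1 h2 hm
        have hc : (insert x F).card = F.card + 1 := Finset.card_insert_of_notMem hxF
        by_cases hA : Allowed m F g
        · rw [if_pos hA, if_pos (h3.1 hA), hc, pow_succ]
          ring
        · rw [if_neg hA, if_neg (fun h => hA (h3.2 h))]
          ring
    · intro F _ _ h
      by_cases hxF : x ∈ F
      · simp only [hxF, if_true] at h
        have : x ∉ F.erase x := by simp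
        rw [h] at this
        exact this hxF
      · simp only [hxF, if_false] at h
        have : x ∈ insert x F := by simp
        rw [h] at this
        exact hxF this
    · intro F _
      by_cases hxF : x ∈ F
      · simp [hxF]
      · simp [hxF]
    · intro F _
      exact Finset.mem_univ _

lemma gf_allowed (m : ℕ) (F : Finset P) :
    gf (Allowed m F) = PowerSeries.X ^ ((m + 1) * F.card) * gf (Good F) := by
  have h := gf_shift (P := P) (fun x => if x ∈ F then m + 1 else 0) (Allowed m F) (Good F) ?_ ?_
  · rw [h]
    congr 2
    simp [Finset.sum_ite_mem, mul_comm]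
  · intro g
    constructor
    · rintro ⟨⟨a1, a2, a3⟩, a4⟩
      refine ⟨a1, ?_, ?_⟩
      · intro x hx y hy hxy
        have := a2 x hx y hy hxy
        simp only [Pi.add_apply, hx, hy, if_true] at this
        omega
      · intro x hx y hy hxy
        have := a3 x hx y hy hxy
        simp only [Pi.add_apply, hx, hy, if_false] at this
        omega
    · rintro ⟨a1, a2, a3⟩
      refine ⟨⟨a1, ?_, ?_⟩, ?_⟩
      · intro x hx y hy hxy
        have := a2 x hx y hy hxy
        simp only [Pi.add_apply, hx, hy, if_true]
        omega
      · intro x hx y hy hxy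
        have := a3 x hx y hy hxy
        simp only [Pi.add_apply, hx, hy, if_false]
        omega
      · intro x hx
        simp only [Pi.add_apply, hx, if_true]
        omega
  · rintro g ⟨_, a4⟩ x
    show (if x ∈ F then m + 1 else 0) ≤ g x
    split_ifs with hx
    · exact a4 x hx
    · exact Nat.zero_le _

lemma gf_bdd (m : ℕ) :
    gf (fun g : P → ℕ => Monotone g ∧ ∀ x, g x ≤ m) =
      ∑ F : Finset P, PowerSeries.C ((-1 : ℚ) ^ F.card) *
        (PowerSeries.X ^ ((m + 1) * F.card) * gf (Good F)) := by
  have h1 : gf (fun g : P → ℕ => Monotone g ∧ ∀ x, g x ≤ m) =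
      ∑ F : Finset P, PowerSeries.C ((-1 : ℚ) ^ F.card) * gf (Allowed m F) := by
    ext n
    rw [coeff_gf, map_sum]
    simp only [PowerSeries.coeff_C_mul, coeff_gf]
    unfold cnt
    simp only [Finset.card_filter, Nat.cast_sum, Finset.mul_sum]
    rw [Finset.sum_comm]
    apply Finset.sum_congr rfl
    intro g _
    have := signed_sum m g
    simp only [Nat.cast_ite, Nat.cast_one, Nat.cast_zero, mul_ite, mul_one, mul_zero]
    rw [this]
  rw [h1]
  apply Finset.sum_congr rfl
  intro F _
  rw [gf_allowed]

end

end Pool.Agent.W_MP_448cb3_co
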