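import Mathlib
import Pool.Agent.W_MP_448cb3_co.Gf
import Pool.Agent.W_MP_448cb3_co.Key
import Pool.Agent.W_MP_448cb3_co.Defs

set_option autoImplicit false

/-!
From the polynomial definition to power series.
-/

namespace Pool.Agent.W_MP_448cb3_co

open Finset
open scoped Classical

noncomputable section

variable {P : Type} [Fintype P]

/-- The bounded sum is a counting series. -/
lemma sum_pow_eq_gf (Q : (P → ℕ) → Prop) (m : ℕ) :
    ∑ σ ∈ (Finset.univ : Finset (P → Fin (m + 1))).filter (fun σ => Q (fun x => (σ x : ℕ))),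
      (PowerSeries.X : PowerSeries ℚ) ^ (∑ x, (σ x : ℕ)) = gf (fun g => Q g ∧ ∀ x, g x ≤ m) := by
  ext n
  rw [coeff_gf, map_sum]
  simp only [PowerSeries.coeff_X_pow]
  rw [Finset.sum_boole]
  congr 1
  unfold cnt
  apply Finset.card_bij (fun σ _ => fun x => (σ x : ℕ))
  · intro σ hσ
    simp only [Finset.mem_filter, mem_pa, Finset.mem_univ, true_and] at hσ ⊢
    exact ⟨hσ.2.symm, hσ.1, fun x => Nat.lt_succ_iff.1 (σ x).2⟩
  · intro σ _ τ _ h
    funext x
    exact Fin.ext (congrFun h x)
  · intro g hg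
    simp only [Finset.mem_filter, mem_pa] at hg
    obtain ⟨h1, h2, h3⟩ := hg
    refine ⟨fun x => ⟨g x, Nat.lt_succ_iff.2 (h3 x)⟩, ?_, rfl⟩
    simp only [Finset.mem_filter, Finset.mem_univ, true_and]
    exact ⟨h2, h1.symm⟩

/-- The ring map sending the variable to the variable. -/
def toPS : Polynomial ℤ →ₐ[ℤ] PowerSeries ℚ := Polynomial.aeval (PowerSeries.X : PowerSeries ℚ)

lemma toPS_X : toPS Polynomial.X = PowerSeries.X := by simp [toPS]

lemma toPS_prod {ι : Type} (s : Finset ι) (n : ι → ℕ) :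
    toPS (∏ i ∈ s, (1 - Polynomial.X ^ (n i))) = ∏ i ∈ s, (1 - PowerSeries.X ^ (n i)) := by
  rw [map_prod]
  simp only [map_sub, map_one, map_pow, toPS_X]

variable [PartialOrder P]

lemma toPS_U (m : ℕ) :
    toPS (U P m) = gf (fun g : P → ℕ => Monotone g ∧ ∀ x, g x ≤ m) := by
  rw [← sum_pow_eq_gf]
  unfold U
  rw [map_sum]
  simp only [map_pow, toPS_X]
  apply Finset.sum_congr _ (fun _ _ => rfl)
  ext σ
  simp only [Finset.mem_filter, Finset.mem_univ, true_and]
  rfl

/-- Reflection of finite sums. -/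
lemma reflect_sum {ι : Type} (s : Finset ι) (f : ι → Polynomial ℤ) (N : ℕ) :
    Polynomial.reflect N (∑ i ∈ s, f i) = ∑ i ∈ s, Polynomial.reflect N (f i) := by
  induction s using Finset.induction_on with
  | empty => simp
  | insert a s ha ih => rw [Finset.sum_insert ha, Finset.sum_insert ha, Polynomial.reflect_add, ih]

lemma natDegree_factor (n : ℕ) : (1 - (Polynomial.X : Polynomial ℤ) ^ n).natDegree ≤ n := by
  refine (Polynomial.natDegree_sub_le _ _).trans ?_
  simp

lemma natDegree_prod {ι : Type} (s : Finset ι) (n : ι → ℕ) :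
    (∏ i ∈ s, (1 - (Polynomial.X : Polynomial ℤ) ^ (n i))).natDegree ≤ ∑ i ∈ s, n i :=
  (Polynomial.natDegree_prod_le _ _).trans (Finset.sum_le_sum (fun i _ => natDegree_factor (n i)))

lemma reflect_prod {ι : Type} (s : Finset ι) (n : ι → ℕ) :
    Polynomial.reflect (∑ i ∈ s, n i) (∏ i ∈ s, (1 - (Polynomial.X : Polynomial ℤ) ^ (n i))) =
      (-1) ^ s.card * ∏ i ∈ s, (1 - (Polynomial.X : Polynomial ℤ) ^ (n i)) := by
  induction s using Finset.induction_on with
  | empty => simp
  | insert a s ha ih =>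
    rw [Finset.sum_insert ha, Finset.prod_insert ha, Finset.card_insert_of_notMem ha,
      Polynomial.reflect_mul _ _ (natDegree_factor _) (natDegree_prod s n), ih,
      Polynomial.reflect_sub, Polynomial.reflect_one, Polynomial.reflect_monomial,
      Polynomial.revAt_le (le_refl _)]
    simp only [Nat.sub_self, pow_zero]
    ring

lemma natDegree_U (m : ℕ) : (U P m).natDegree ≤ m * Fintype.card P := by
  unfold U
  apply Polynomial.natDegree_sum_le_of_forall_le
  intro σ _
  rw [Polynomial.natDegree_X_pow]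
  calc ∑ x, (σ x : ℕ) ≤ ∑ _x : P, m := Finset.sum_le_sum (fun x _ => Nat.lt_succ_iff.1 (σ x).2)
    _ = m * Fintype.card P := by simp [mul_comm]

lemma reflect_U (m : ℕ) :
    toPS (Polynomial.reflect (m * Fintype.card P) (U P m)) =
      gf (fun g : P → ℕ => Antitone g ∧ ∀ x, g x ≤ m) := by
  rw [← sum_pow_eq_gf]
  unfold U
  rw [reflect_sum, map_sum]
  apply Finset.sum_bij (fun σ _ => fun x => Fin.rev (σ x))
  · intro σ hσ
    simp only [Finset.mem_filter, Finset.mem_univ, true_and] at hσ ⊢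
    intro x y hxy
    have := hσ x y hxy
    show ((Fin.rev (σ y) : Fin (m+1)) : ℕ) ≤ ((Fin.rev (σ x) : Fin (m+1)) : ℕ)
    exact Fin.rev_le_rev.2 this
  · intro σ _ τ _ h
    funext x
    exact Fin.rev_injective (congrFun h x)
  · intro τ hτ
    simp only [Finset.mem_filter, Finset.mem_univ, true_and] at hτ
    refine ⟨fun x => Fin.rev (τ x), ?_, ?_⟩
    · simp only [Finset.mem_filter, Finset.mem_univ, true_and]
      intro x y hxy
      exact Fin.rev_le_rev.2 (hτ hxy)
    · funext x
      simp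
  · intro σ _
    rw [Polynomial.reflect_monomial]
    have hle : ∀ x, (σ x : ℕ) ≤ m := fun x => Nat.lt_succ_iff.1 (σ x).2
    have h1 : ∑ x, (σ x : ℕ) ≤ m * Fintype.card P := by
      calc ∑ x, (σ x : ℕ) ≤ ∑ _x : P, m := Finset.sum_le_sum (fun x _ => hle x)
        _ = m * Fintype.card P := by simp [mul_comm]
    rw [Polynomial.revAt_le h1, map_pow, toPS_X]
    congr 1
    have h2 : ∑ x, ((Fin.rev (σ x) : Fin (m+1)) : ℕ) + ∑ x, (σ x : ℕ) = m * Fintype.card P := by
      rw [← Finset.sum_add_distrib]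
      calc ∑ x, (((Fin.rev (σ x) : Fin (m+1)) : ℕ) + (σ x : ℕ)) = ∑ _x : P, m := by
            apply Finset.sum_congr rfl
            intro x _
            have := hle x
            simp only [Fin.val_rev]
            omega
        _ = m * Fintype.card P := by simp [mul_comm]
    show m * Fintype.card P - ∑ x, (σ x : ℕ) = ∑ x, ((Fin.rev (σ x) : Fin (m+1)) : ℕ)
    omega

/-- The data of a Gaussian poset in terms of power series. -/
structure GData (P : Type) [Fintype P] [PartialOrder P] (ι : Type) [Fintype ι] where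
  /-- the numbers `h_i - 1` -/
  a : ι → ℕ
  hcard : Fintype.card ι = Fintype.card P
  mono : ∀ m : ℕ, gf (fun g : P → ℕ => Monotone g ∧ ∀ x, g x ≤ m) *
    ∏ i, (1 - PowerSeries.X ^ (a i + 1)) = ∏ i, (1 - PowerSeries.X ^ (m + 1 + a i))
  anti : ∀ m : ℕ, gf (fun g : P → ℕ => Antitone g ∧ ∀ x, g x ≤ m) *
    ∏ i, (1 - PowerSeries.X ^ (a i + 1)) = ∏ i, (1 - PowerSeries.X ^ (m + 1 + a i))

lemma exists_GData (hP : IsGaussian P) : Nonempty (GData P (Fin (Fintype.card P))) := by
  obtain ⟨h, hpos, hU⟩ := hP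
  have e1 : ∀ i, h i - 1 + 1 = h i := fun i => by have := hpos i; omega
  have e2 : ∀ m i, m + 1 + (h i - 1) = m + h i := fun m i => by have := hpos i; omega
  refine ⟨⟨fun i => h i - 1, by simp, ?_, ?_⟩⟩
  · intro m
    simp only [e1, e2]
    rw [← toPS_prod, ← toPS_prod, ← toPS_U, ← map_mul, hU m]
  · intro m
    simp only [e1, e2]
    rw [← toPS_prod, ← toPS_prod, ← reflect_U, ← map_mul]
    congr 1
    have h1 := congrArg (Polynomial.reflect (m * Fintype.card P + ∑ i, h i)) (hU m)
    rw [Polynomial.reflect_mul _ _ (natDegree_U m) (natDegree_prod _ h), reflect_prod] at h1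
    have h2 : m * Fintype.card P + ∑ i, h i = ∑ i, (m + h i) := by
      rw [Finset.sum_add_distrib]
      simp [mul_comm]
    rw [h2, reflect_prod] at h1
    have h3 : ((-1 : Polynomial ℤ) ^ (Finset.univ : Finset (Fin (Fintype.card P))).card) ≠ 0 := by
      apply pow_ne_zero
      norm_num
    apply mul_left_cancel₀ h3
    rw [← h1]
    ring

end

end Pool.Agent.W_MP_448cb3_co
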