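import Mathlib
import Pool.Agent.W_MP_448cb3_co.Gauss

set_option autoImplicit false

/-!
The key identity for Gaussian posets.
-/

namespace Pool.Agent.W_MP_448cb3_co

open Finset
open scoped Classical

noncomputable section

variable {P : Type} [Fintype P] [PartialOrder P] {ι : Type} [Fintype ι]

/-- The denominator. -/
def DD (a : ι → ℕ) : PowerSeries ℚ := ∏ i, (1 - PowerSeries.X ^ (a i + 1))

omit [Fintype ι] in
lemma prod_near_one (s : Finset ι) (a : ι → ℕ) (n : ℕ) :
    ∃ r : PowerSeries ℚ, ∏ i ∈ s, (1 - (PowerSeries.X : PowerSeries ℚ) ^ (n + 1 + a i)) =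
      1 + PowerSeries.X ^ (n + 1) * r := by
  induction s using Finset.induction_on with
  | empty => exact ⟨0, by simp⟩
  | insert b s hb ih =>
    obtain ⟨r, hr⟩ := ih
    rw [Finset.prod_insert hb, hr]
    refine ⟨r - PowerSeries.X ^ (a b) - PowerSeries.X ^ (a b) * PowerSeries.X ^ (n + 1) * r, ?_⟩
    ring

omit [PartialOrder P] in
lemma lim_inv (a : ι → ℕ) (Q : (P → ℕ) → Prop)
    (h : ∀ m : ℕ, gf (fun g : P → ℕ => Q g ∧ ∀ x, g x ≤ m) * DD a =
      ∏ i, (1 - PowerSeries.X ^ (m + 1 + a i))) : gf Q * DD a = 1 := by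
  ext n
  have h1 : PowerSeries.coeff n (gf Q * DD a) =
      PowerSeries.coeff n (gf (fun g : P → ℕ => Q g ∧ ∀ x, g x ≤ n) * DD a) := by
    rw [PowerSeries.coeff_mul, PowerSeries.coeff_mul]
    apply Finset.sum_congr rfl
    rintro ⟨i, j⟩ hij
    rw [Finset.HasAntidiagonal.mem_antidiagonal] at hij
    congr 1
    rw [coeff_gf, coeff_gf]
    congr 1
    apply cnt_congr
    intro g hg
    constructor
    · intro hQ
      refine ⟨hQ, fun x => ?_⟩
      have : g x ≤ ∑ y, g y := Finset.single_le_sum (f := g) (fun _ _ => Nat.zero_le _)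
        (Finset.mem_univ x)
      simp only at hij hg
      omega
    · exact fun h => h.1
  rw [h1, h n]
  obtain ⟨r, hr⟩ := prod_near_one (Finset.univ : Finset ι) a n
  rw [hr, map_add, PowerSeries.coeff_X_pow_mul']
  simp

lemma mono_inv (G : GData P ι) : gf (fun g : P → ℕ => Monotone g) * DD G.a = 1 :=
  lim_inv G.a _ G.mono

lemma anti_inv (G : GData P ι) : gf (fun g : P → ℕ => Antitone g) * DD G.a = 1 :=
  lim_inv G.a _ G.anti

lemma mono_eq_anti (G : GData P ι) :
    gf (fun g : P → ℕ => Monotone g) = gf (fun g : P → ℕ => Antitone g) := by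
  have h1 := mono_inv G
  have h2 := anti_inv G
  have h3 : DD G.a ≠ 0 := by
    intro h
    rw [h, mul_zero] at h1
    exact zero_ne_one h1
  exact mul_right_cancel₀ h3 (h1.trans h2.symm)

lemma X_pow_inj (m n : ℕ) (h : (PowerSeries.X : PowerSeries ℚ) ^ m = PowerSeries.X ^ n) : m = n := by
  have := congrArg (PowerSeries.coeff m) h
  rw [PowerSeries.coeff_X_pow_self, PowerSeries.coeff_X_pow] at this
  by_contra hne
  rw [if_neg hne] at this
  exact one_ne_zero this

/-- The auxiliary polynomial in the second variable. -/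
def QP (P : Type) [Fintype P] [PartialOrder P] (a : ι → ℕ) : Polynomial (PowerSeries ℚ) :=
  ∑ F : Finset P, Polynomial.C (PowerSeries.C ((-1 : ℚ) ^ F.card) * gf (Good F) * DD a) *
      Polynomial.X ^ F.card -
    ∑ t : Finset ι, Polynomial.C (PowerSeries.C ((-1 : ℚ) ^ t.card) *
      PowerSeries.X ^ (∑ i ∈ t, a i)) * Polynomial.X ^ t.card

lemma QP_eval (G : GData P ι) (m : ℕ) :
    (QP P G.a).eval ((PowerSeries.X : PowerSeries ℚ) ^ (m + 1)) = 0 := by
  unfold QP
  rw [Polynomial.eval_sub, sub_eq_zero, Polynomial.eval_finsetSum, Polynomial.eval_finsetSum]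
  simp only [Polynomial.eval_mul, Polynomial.eval_C, Polynomial.eval_pow, Polynomial.eval_X]
  have h1 := G.mono m
  rw [gf_bdd] at h1
  have h2 : ∏ i, (1 - (PowerSeries.X : PowerSeries ℚ) ^ (m + 1 + G.a i)) =
      ∑ t : Finset ι, PowerSeries.C ((-1 : ℚ) ^ t.card) *
        PowerSeries.X ^ (∑ i ∈ t, G.a i) * (PowerSeries.X ^ (m + 1)) ^ t.card := by
    have e : ∀ i, 1 - (PowerSeries.X : PowerSeries ℚ) ^ (m + 1 + G.a i) =
        (-(PowerSeries.X ^ (m + 1) * PowerSeries.X ^ (G.a i))) + 1 := fun i => by ring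
    simp only [e]
    rw [Fintype.prod_add]
    apply Finset.sum_congr rfl
    intro t _
    rw [Finset.prod_neg, Finset.prod_mul_distrib, Finset.prod_const, Finset.prod_pow_eq_pow_sum]
    simp only [Finset.prod_const_one, mul_one, map_pow, map_neg, map_one]
    ring
  rw [h2] at h1
  rw [← h1, Finset.sum_mul]
  apply Finset.sum_congr rfl
  intro F _
  rw [pow_mul]
  unfold DD
  ring

lemma QP_zero (G : GData P ι) : QP P G.a = 0 := by
  apply Polynomial.eq_zero_of_infinite_isRoot
  apply Set.infinite_of_injective_forall_mem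
    (f := fun m : ℕ => (PowerSeries.X : PowerSeries ℚ) ^ (m + 1))
  · intro m n h
    have := X_pow_inj _ _ h
    omega
  · intro m
    exact QP_eval G m

/-- The key identity. -/
lemma key (G : GData P ι) (k : ℕ) :
    ∑ F ∈ Finset.powersetCard k (Finset.univ : Finset P), gf (Good F) * DD G.a =
      ∑ t ∈ Finset.powersetCard k (Finset.univ : Finset ι), PowerSeries.X ^ (∑ i ∈ t, G.a i) := by
  have h := congrArg (fun q => Polynomial.coeff q k) (QP_zero G)
  simp only [QP, Polynomial.coeff_sub, Polynomial.finsetSum_coeff, Polynomial.coeff_zero,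
    Polynomial.coeff_C_mul_X_pow] at h
  rw [sub_eq_zero] at h
  have e1 : ∀ {α : Type} [Fintype α], Finset.powersetCard k (Finset.univ : Finset α) =
      (Finset.univ : Finset (Finset α)).filter (fun F => k = F.card) := by
    intro α _
    ext F
    simp [Finset.mem_powersetCard, eq_comm]
  rw [← Finset.sum_filter, ← Finset.sum_filter, ← e1, ← e1] at h
  have h3 : (PowerSeries.C ((-1 : ℚ) ^ k)) ≠ 0 := by
    rw [Ne, map_eq_zero_iff _ PowerSeries.C_injective]
    exact pow_ne_zero _ (by norm_num)
  apply mul_left_cancel₀ h3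
  rw [Finset.mul_sum, Finset.mul_sum]
  have e2 : ∀ {α : Type} [Fintype α] (F : Finset α), F ∈ Finset.powersetCard k (Finset.univ : Finset α) →
      F.card = k := by
    intro α _ F hF
    exact (Finset.mem_powersetCard.1 hF).2
  calc ∑ F ∈ Finset.powersetCard k (Finset.univ : Finset P),
        PowerSeries.C ((-1 : ℚ) ^ k) * (gf (Good F) * DD G.a)
      = ∑ F ∈ Finset.powersetCard k (Finset.univ : Finset P),
        PowerSeries.C ((-1 : ℚ) ^ F.card) * gf (Good F) * DD G.a := by
        apply Finset.sum_congr rfl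
        intro F hF
        rw [e2 F hF]
        ring
    _ = ∑ t ∈ Finset.powersetCard k (Finset.univ : Finset ι),
        PowerSeries.C ((-1 : ℚ) ^ t.card) * PowerSeries.X ^ (∑ i ∈ t, G.a i) := h
    _ = _ := by
        apply Finset.sum_congr rfl
        intro t ht
        rw [e2 t ht]

/-- The key identity in product form. -/
lemma key_prod (G : GData P ι) (u v : PowerSeries ℚ) :
    ∑ F : Finset P, u ^ F.card * v ^ (Fintype.card P - F.card) * (gf (Good F) * DD G.a) =
      ∏ i, (v + u * PowerSeries.X ^ (G.a i)) := by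
  have h1 : ∏ i, (v + u * PowerSeries.X ^ (G.a i)) =
      ∑ t : Finset ι, u ^ t.card * v ^ (Fintype.card P - t.card) *
        PowerSeries.X ^ (∑ i ∈ t, G.a i) := by
    have e : ∀ i, v + u * PowerSeries.X ^ (G.a i) = u * PowerSeries.X ^ (G.a i) + v :=
      fun i => by ring
    simp only [e]
    rw [Fintype.prod_add]
    apply Finset.sum_congr rfl
    intro t _
    rw [Finset.prod_mul_distrib, Finset.prod_const, Finset.prod_pow_eq_pow_sum, Finset.prod_const,
      Finset.card_compl, G.hcard]
    ring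
  rw [h1]
  have e3 : ∀ {α : Type} [Fintype α] (f : Finset α → PowerSeries ℚ), Fintype.card α = Fintype.card P →
      ∑ F : Finset α, u ^ F.card * v ^ (Fintype.card P - F.card) * f F =
      ∑ k ∈ Finset.range (Fintype.card P + 1), u ^ k * v ^ (Fintype.card P - k) *
        ∑ F ∈ Finset.powersetCard k (Finset.univ : Finset α), f F := by
    intro α _ f hα
    rw [← Finset.powerset_univ, Finset.sum_powerset, Finset.card_univ, hα]
    apply Finset.sum_congr rfl
    intro k _
    rw [Finset.mul_sum]
    apply Finset.sum_congr rfl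
    intro F hF
    rw [(Finset.mem_powersetCard.1 hF).2]
  rw [e3 _ rfl, e3 _ G.hcard]
  apply Finset.sum_congr rfl
  intro k _
  rw [key G k]

/-- The key identity, without the denominator. -/
lemma key_prod' (G : GData P ι) (u v : PowerSeries ℚ) :
    ∑ F : Finset P, u ^ F.card * v ^ (Fintype.card P - F.card) * gf (Good F) =
      gf (fun g : P → ℕ => Monotone g) * ∏ i, (v + u * PowerSeries.X ^ (G.a i)) := by
  rw [← key_prod G u v, Finset.mul_sum]
  apply Finset.sum_congr rfl
  intro F _
  have := mono_inv G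
  calc u ^ F.card * v ^ (Fintype.card P - F.card) * gf (Good F)
      = u ^ F.card * v ^ (Fintype.card P - F.card) * gf (Good F) * 1 := by ring
    _ = _ := by rw [← this]; ring

end

end Pool.Agent.W_MP_448cb3_co
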