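import Mathlib
import Pool.Agent.W_MP_448cb3_co.Ident

set_option autoImplicit false

/-!
A Gaussian poset is graded.
-/

namespace Pool.Agent.W_MP_448cb3_co

open Finset
open scoped Classical

noncomputable section

variable {P : Type} [Fintype P] [PartialOrder P]

/-- `c x` is the length of a longest chain strictly above `x`. -/
structure IsCr (c : P → ℕ) : Prop where
  anti : ∀ x y, x < y → c y < c x
  step : ∀ x, 0 < c x → ∃ y, x < y ∧ c y + 1 = c x

lemma exists_cr : ∃ c : P → ℕ, IsCr c := by
  -- take a strictly order reversing map of minimal total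
  have h0 : ∃ n : ℕ, ∃ g : P → ℕ, (∀ x y, x < y → g y < g x) ∧ ∑ x, g x = n := by
    refine ⟨_, fun x => ((Finset.univ : Finset P).filter (fun y => x < y)).card, ?_, rfl⟩
    intro x y hxy
    apply Finset.card_lt_card
    refine ⟨?_, ?_⟩
    · intro z hz
      simp only [Finset.mem_filter, Finset.mem_univ, true_and] at hz ⊢
      exact hxy.trans hz
    · intro h
      have := h (by simp [hxy] : y ∈ (Finset.univ : Finset P).filter (fun y => x < y))
      simp at this
  obtain ⟨g, hg, hs⟩ := Nat.find_spec h0
  have hmin := fun n (hn : n < Nat.find h0) => Nat.find_min h0 hn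
  refine ⟨g, hg, ?_⟩
  intro x hx
  by_contra hcon
  push Not at hcon
  apply hmin (∑ y, Function.update g x (g x - 1) y) ?_
  · refine ⟨Function.update g x (g x - 1), ?_, rfl⟩
    intro u v huv
    by_cases hu : u = x
    · subst hu
      have hv : v ≠ u := huv.ne'
      rw [Function.update_of_ne hv, Function.update_self]
      have h1 := hg u v huv
      have h2 := hcon v huv
      omega
    · rw [Function.update_of_ne hu]
      by_cases hv : v = x
      · subst hv
        rw [Function.update_self]
        have h1 := hg u v huv
        omega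
      · rw [Function.update_of_ne hv]
        exact hg u v huv
  · rw [← hs]
    apply Finset.sum_lt_sum
    · intro y _
      by_cases hy : y = x
      · subst hy
        rw [Function.update_self]
        omega
      · rw [Function.update_of_ne hy]
    · exact ⟨x, Finset.mem_univ _, by rw [Function.update_self]; omega⟩

omit [Fintype P] in
lemma cr_le_good {c : P → ℕ} (hc : IsCr c) {F : Finset P} {g : P → ℕ} (hg : Good F g) :
    ∀ n : ℕ, ∀ x ∈ F, c x = n → n ≤ g x := by
  intro n
  induction n with
  | zero => intro x _ _; exact Nat.zero_le _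
  | succ n ih =>
    intro x hx hn
    obtain ⟨y, hxy, hy⟩ := hc.step x (by omega)
    have hyF := hg.1 x hx y hxy.le
    have h1 := ih y hyF (by omega)
    have h2 := hg.2.1 x hx y hyF hxy
    omega

lemma good_univ_iff (g : P → ℕ) : Good (Finset.univ : Finset P) g ↔ ∀ x y, x < y → g y < g x := by
  constructor
  · intro h x y hxy
    exact h.2.1 x (Finset.mem_univ _) y (Finset.mem_univ _) hxy
  · intro h
    exact ⟨fun _ _ _ _ => Finset.mem_univ _, fun x _ y _ hxy => h x y hxy,
      fun x hx => absurd (Finset.mem_univ x) hx⟩

variable {ι : Type} [Fintype ι]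

lemma gf_good_univ (G : GData P ι) :
    gf (Good (Finset.univ : Finset P)) =
      PowerSeries.X ^ (∑ i, G.a i) * gf (fun g : P → ℕ => Antitone g) := by
  have h := key G (Fintype.card P)
  have e1 : Finset.powersetCard (Fintype.card P) (Finset.univ : Finset P) = {Finset.univ} := by
    rw [← Finset.card_univ, Finset.powersetCard_self]
  have e2 : Finset.powersetCard (Fintype.card P) (Finset.univ : Finset ι) = {Finset.univ} := by
    rw [← G.hcard, ← Finset.card_univ, Finset.powersetCard_self]
  rw [e1, e2, Finset.sum_singleton, Finset.sum_singleton] at h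
  rw [← h]
  have := anti_inv G
  calc gf (Good (Finset.univ : Finset P)) = gf (Good (Finset.univ : Finset P)) * 1 := by ring
    _ = _ := by rw [← this]; ring

lemma sum_a_eq (G : GData P ι) {c : P → ℕ} (hc : IsCr c) : ∑ i, G.a i = ∑ x, c x := by
  have h := gf_good_univ G
  have hcg : Good (Finset.univ : Finset P) c := (good_univ_iff c).2 hc.anti
  apply le_antisymm
  · by_contra hlt
    push Not at hlt
    have h1 := congrArg (PowerSeries.coeff (∑ x, c x)) h
    rw [coeff_gf, PowerSeries.coeff_X_pow_mul', if_neg (by omega)] at h1
    have h2 : cnt (Good (Finset.univ : Finset P)) (∑ x, c x) ≠ 0 := by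
      unfold cnt
      apply Finset.card_ne_zero_of_mem (a := c)
      simp only [Finset.mem_filter, mem_pa]
      exact ⟨trivial, hcg⟩
    exact h2 (by exact_mod_cast h1)
  · have h1 := congrArg (PowerSeries.coeff (∑ i, G.a i)) h
    rw [coeff_gf, PowerSeries.coeff_X_pow_mul', if_pos le_rfl, Nat.sub_self, coeff_gf, cnt_zero,
      if_pos (show Antitone (0 : P → ℕ) from fun _ _ _ => le_refl _)] at h1
    have h2 : cnt (Good (Finset.univ : Finset P)) (∑ i, G.a i) = 1 := by exact_mod_cast h1
    have h3 : (((Finset.piAntidiag (Finset.univ : Finset P) (∑ i, G.a i)).filter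
        (Good (Finset.univ : Finset P)))).Nonempty := by
      rw [← Finset.card_pos]
      unfold cnt at h2
      omega
    obtain ⟨g, hg⟩ := h3
    simp only [Finset.mem_filter, mem_pa] at hg
    rw [← hg.1]
    exact Finset.sum_le_sum (fun x _ => cr_le_good hc hg.2 (c x) x (Finset.mem_univ _) rfl)

lemma anti_of_good_add (G : GData P ι) {c : P → ℕ} (hc : IsCr c) (g : P → ℕ)
    (hg : Good (Finset.univ : Finset P) (g + c)) : Antitone g := by
  have h := gf_good_univ G
  rw [sum_a_eq G hc] at h
  have h1 : ∀ n, cnt (fun g : P → ℕ => Good (Finset.univ : Finset P) (g + c)) n =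
      cnt (fun g : P → ℕ => Antitone g) n := by
    intro n
    have h2 := congrArg (PowerSeries.coeff (n + ∑ x, c x)) h
    rw [coeff_gf, PowerSeries.coeff_X_pow_mul', if_pos (by omega), Nat.add_sub_cancel, coeff_gf,
      cnt_shift c _ (fun g : P → ℕ => Good (Finset.univ : Finset P) (g + c)) (fun _ => Iff.rfl)
      (fun g hg x => cr_le_good hc hg (c x) x (Finset.mem_univ _) rfl)] at h2
    exact_mod_cast h2
  have h2 := h1 (∑ x, g x)
  unfold cnt at h2
  have h3 : (Finset.piAntidiag (Finset.univ : Finset P) (∑ x, g x)).filter
      (fun g : P → ℕ => Antitone g) =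
      (Finset.piAntidiag (Finset.univ : Finset P) (∑ x, g x)).filter
      (fun g : P → ℕ => Good (Finset.univ : Finset P) (g + c)) := by
    apply Finset.eq_of_subset_of_card_le
    · intro f hf
      simp only [Finset.mem_filter] at hf ⊢
      refine ⟨hf.1, ?_⟩
      rw [good_univ_iff]
      intro x y hxy
      have h4 := hf.2 hxy.le
      have h5 := hc.anti x y hxy
      simp only [Pi.add_apply]
      omega
    · apply le_of_eq
      convert h2
  have h4 : g ∈ (Finset.piAntidiag (Finset.univ : Finset P) (∑ x, g x)).filter
      (fun g : P → ℕ => Good (Finset.univ : Finset P) (g + c)) := by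
    simp only [Finset.mem_filter, mem_pa]
    exact ⟨trivial, hg⟩
  rw [← h3] at h4
  exact (Finset.mem_filter.1 h4).2

/-- Gaussian posets are graded. -/
lemma graded (G : GData P ι) {c : P → ℕ} (hc : IsCr c) (x y : P) (hxy : y ⋖ x) :
    c y = c x + 1 := by
  by_contra hne
  have hlt := hc.anti y x hxy.lt
  have h2 : c x + 2 ≤ c y := by omega
  let g : P → ℕ := fun u => if u = y then 0 else if u = x then c y - 1 - c x else
    if u < x then c y else 0
  have hgood : Good (Finset.univ : Finset P) (g + c) := by
    rw [good_univ_iff]
    intro u v huv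
    have hcuv := hc.anti u v huv
    simp only [Pi.add_apply]
    have hyx : y ≠ x := hxy.lt.ne
    by_cases hv : v = y
    · subst hv
      have hu1 : u ≠ v := huv.ne
      have hu2 : u ≠ x := (huv.trans hxy.lt).ne
      have hu3 : u < x := huv.trans hxy.lt
      simp only [g, if_true, hu1, hu2, hu3, if_false]
      omega
    · by_cases hv2 : v = x
      · subst hv2
        by_cases hu : u = y
        · subst hu
          simp only [g, if_true, hv, if_false]
          omega
        · have hu2 : u ≠ v := huv.ne
          simp only [g, if_true, hv, hu, hu2, huv, if_false]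
          omega
      · by_cases hv3 : v < x
        · have hu : u ≠ y := by
            rintro rfl
            exact hxy.2 huv hv3
          have hu2 : u ≠ x := (huv.trans hv3).ne
          have hu3 : u < x := huv.trans hv3
          simp only [g, if_true, hv, hv2, hv3, hu, hu2, hu3, if_false]
          omega
        · have hgv : g v = 0 := by
            simp only [g, hv, hv2, hv3, if_false]
          rw [hgv]
          omega
  have hanti := anti_of_good_add G hc g hgood
  have h3 := hanti hxy.lt.le
  have h4 : g y = 0 := by simp [g]
  have h5 : g x = c y - 1 - c x := by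
    have : x ≠ y := hxy.lt.ne'
    simp [g, this]
  rw [h4, h5] at h3
  omega

end

end Pool.Agent.W_MP_448cb3_co
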