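import Mathlib
import Pool.Agent.W_MP_448cb3_co.Graded

set_option autoImplicit false

/-!
The key identity around a level, and its first coefficient.
-/

namespace Pool.Agent.W_MP_448cb3_co

open Finset
open scoped Classical

noncomputable section

variable {P : Type} [Fintype P] [PartialOrder P] {ι : Type} [Fintype ι]

/-- The energy of a subset relative to level `j`. -/
def eps (c : P → ℕ) (j : ℕ) (S : Finset P) : ℕ := ∑ x, (if x ∈ S then c x - j else j - c x)

/-- The least map on `S`. -/
def base (c : P → ℕ) (S : Finset P) : P → ℕ := fun x => if x ∈ S then c x else 0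

/-- The series of a subset after removing the least map. -/
def HH (c : P → ℕ) (S : Finset P) : PowerSeries ℚ := gf (fun g => Good S (g + base c S))

lemma gf_good_eq {c : P → ℕ} (hc : IsCr c) (S : Finset P) :
    gf (Good S) = PowerSeries.X ^ (∑ x, base c S x) * HH c S := by
  apply gf_shift
  · intro g; exact Iff.rfl
  · intro g hg x
    unfold base
    split_ifs with hx
    · exact cr_le_good hc hg (c x) x hx rfl
    · exact Nat.zero_le _

omit [PartialOrder P] in
lemma exponent_eq (c : P → ℕ) (j : ℕ) (S : Finset P) :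
    j * (Fintype.card P - S.card) + ∑ x, base c S x = ∑ x, min (c x) j + eps c j S := by
  have h1 : j * (Fintype.card P - S.card) = ∑ x : P, (if x ∈ S then 0 else j) := by
    rw [← Finset.card_compl]
    have : ∑ x : P, (if x ∈ S then 0 else j) = ∑ x ∈ Sᶜ, j := by
      rw [Finset.sum_ite]; simp [Finset.compl_eq_univ_sdiff, Finset.sdiff_eq_filter]
    rw [this]
    simp [mul_comm]
  rw [h1]
  unfold eps base
  rw [← Finset.sum_add_distrib, ← Finset.sum_add_distrib]
  apply Finset.sum_congr rfl
  intro x _
  split_ifs <;> omega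

lemma lhs_eq {c : P → ℕ} (hc : IsCr c) (j : ℕ) (τ : ℚ) :
    ∑ S : Finset P, (PowerSeries.C τ) ^ S.card * (PowerSeries.X ^ j) ^ (Fintype.card P - S.card) *
      gf (Good S) = PowerSeries.X ^ (∑ x, min (c x) j) *
        ∑ S : Finset P, PowerSeries.C (τ ^ S.card) * (PowerSeries.X ^ (eps c j S) * HH c S) := by
  rw [Finset.mul_sum]
  apply Finset.sum_congr rfl
  intro S _
  have h := exponent_eq c j S
  rw [gf_good_eq hc S, ← pow_mul, map_pow]
  calc (PowerSeries.C τ) ^ S.card * PowerSeries.X ^ (j * (Fintype.card P - S.card)) *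
        (PowerSeries.X ^ (∑ x, base c S x) * HH c S)
      = (PowerSeries.C τ) ^ S.card *
        (PowerSeries.X ^ (j * (Fintype.card P - S.card) + ∑ x, base c S x) * HH c S) := by
        rw [pow_add]; ring
    _ = _ := by rw [h, pow_add]; ring

lemma prod_factor {α : Type} [Fintype α] (a : α → ℕ) (j : ℕ) (τ : ℚ) :
    ∏ i, ((PowerSeries.X : PowerSeries ℚ) ^ j + PowerSeries.C τ * PowerSeries.X ^ (a i)) =
      PowerSeries.X ^ (∑ i, min (a i) j) *
        ∏ i, (PowerSeries.X ^ (j - a i) + PowerSeries.C τ * PowerSeries.X ^ (a i - j)) := by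
  rw [← Finset.prod_pow_eq_pow_sum, ← Finset.prod_mul_distrib]
  apply Finset.prod_congr rfl
  intro i _
  have h1 : j = min (a i) j + (j - a i) := by omega
  have h2 : a i = min (a i) j + (a i - j) := by omega
  calc (PowerSeries.X : PowerSeries ℚ) ^ j + PowerSeries.C τ * PowerSeries.X ^ (a i)
      = PowerSeries.X ^ (min (a i) j + (j - a i)) +
        PowerSeries.C τ * PowerSeries.X ^ (min (a i) j + (a i - j)) := by rw [← h1, ← h2]
    _ = _ := by rw [pow_add, pow_add]; ring

omit [PartialOrder P] in
lemma prod_eq_sum (c : P → ℕ) (j : ℕ) (τ : ℚ) :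
    ∏ x, ((PowerSeries.X : PowerSeries ℚ) ^ (j - c x) + PowerSeries.C τ * PowerSeries.X ^ (c x - j)) =
      ∑ S : Finset P, PowerSeries.C (τ ^ S.card) * PowerSeries.X ^ (eps c j S) := by
  have e : ∀ x, (PowerSeries.X : PowerSeries ℚ) ^ (j - c x) +
      PowerSeries.C τ * PowerSeries.X ^ (c x - j) =
      PowerSeries.C τ * PowerSeries.X ^ (c x - j) + PowerSeries.X ^ (j - c x) := fun x => by ring
  simp only [e]
  rw [Fintype.prod_add]
  apply Finset.sum_congr rfl
  intro S _
  rw [Finset.prod_mul_distrib, Finset.prod_const, Finset.prod_pow_eq_pow_sum,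
    Finset.prod_pow_eq_pow_sum, mul_assoc, ← pow_add, map_pow]
  congr 2
  unfold eps
  rw [Finset.sum_ite]
  congr 1
  · apply Finset.sum_congr _ (fun _ _ => rfl)
    ext x; simp
  · apply Finset.sum_congr _ (fun _ _ => rfl)
    ext x; simp

lemma const_HH {c : P → ℕ} (hc : IsCr c) (S : Finset P) :
    PowerSeries.coeff 0 (HH c S) = if (∀ x ∈ S, ∀ y, x ≤ y → y ∈ S) then 1 else 0 := by
  unfold HH
  rw [coeff_gf, cnt_zero]
  have : Good S (0 + base c S) ↔ (∀ x ∈ S, ∀ y, x ≤ y → y ∈ S) := by
    rw [zero_add]
    constructor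
    · exact fun h => h.1
    · intro h
      refine ⟨h, ?_, ?_⟩
      · intro x hx y hy hxy
        simp only [base, hx, hy, if_true]
        exact hc.anti x y hxy
      · intro x hx y hy _
        simp only [base, hx, hy, if_false]
        exact le_refl _
  simp only [this]
  split_ifs <;> simp

omit [PartialOrder P] in
lemma eps_zero_iff (c : P → ℕ) (j : ℕ) (S : Finset P) :
    eps c j S = 0 ↔ ∀ x, (x ∈ S → c x ≤ j) ∧ (x ∉ S → j ≤ c x) := by
  unfold eps
  rw [Finset.sum_eq_zero_iff]
  constructor
  · intro h x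
    have := h x (Finset.mem_univ _)
    constructor
    · intro hx
      rw [if_pos hx] at this
      omega
    · intro hx
      rw [if_neg hx] at this
      omega
  · intro h x _
    split_ifs with hx
    · have := (h x).1 hx; omega
    · have := (h x).2 hx; omega

lemma upper_of_eps_zero {c : P → ℕ} (hc : IsCr c) (j : ℕ) (S : Finset P) (h : eps c j S = 0) :
    ∀ x ∈ S, ∀ y, x ≤ y → y ∈ S := by
  rw [eps_zero_iff] at h
  intro x hx y hxy
  by_contra hy
  have h1 := (h x).1 hx
  have h2 := (h y).2 hy
  rcases lt_or_eq_of_le hxy with h3 | h3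
  · have := hc.anti x y h3
    omega
  · subst h3
    exact hy hx

lemma cancel_X_pow (m n : ℕ) (A B : PowerSeries ℚ)
    (h : PowerSeries.X ^ m * A = PowerSeries.X ^ n * B) (hA : PowerSeries.coeff 0 A ≠ 0)
    (hB : PowerSeries.coeff 0 B ≠ 0) : A = B := by
  rcases lt_trichotomy m n with hmn | hmn | hmn
  · exfalso
    have := congrArg (PowerSeries.coeff m) h
    rw [PowerSeries.coeff_X_pow_mul', PowerSeries.coeff_X_pow_mul', if_pos le_rfl,
      if_neg (by omega), Nat.sub_self] at this
    exact hA this
  · subst hmn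
    exact mul_left_cancel₀ (pow_ne_zero _ PowerSeries.X_ne_zero) h
  · exfalso
    have := congrArg (PowerSeries.coeff n) h
    rw [PowerSeries.coeff_X_pow_mul', PowerSeries.coeff_X_pow_mul', if_pos le_rfl,
      if_neg (by omega), Nat.sub_self] at this
    exact hB this.symm

lemma const_prod {α : Type} [Fintype α] (a : α → ℕ) (j : ℕ) :
    PowerSeries.coeff 0 (∏ i, ((PowerSeries.X : PowerSeries ℚ) ^ (j - a i) +
      PowerSeries.C (1 : ℚ) * PowerSeries.X ^ (a i - j))) =
      2 ^ ((Finset.univ : Finset α).filter (fun i => a i = j)).card := by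
  rw [PowerSeries.coeff_zero_eq_constantCoeff_apply, map_prod, ← Finset.prod_const,
    Finset.prod_filter]
  apply Finset.prod_congr rfl
  intro i _
  by_cases h : a i = j
  · subst h
    simp
    norm_num
  · rw [if_neg h]
    rcases lt_or_gt_of_ne h with h1 | h1
    · have h2 : a i - j = 0 := by omega
      have h3 : j - a i ≠ 0 := by omega
      simp [h2, h3]
    · have h2 : j - a i = 0 := by omega
      have h3 : a i - j ≠ 0 := by omega
      simp [h2, h3]

lemma const_mono : PowerSeries.coeff 0 (gf (fun g : P → ℕ => Monotone g)) = 1 := by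
  rw [coeff_gf, cnt_zero, if_pos (show Monotone (0 : P → ℕ) from fun _ _ _ => le_refl _)]
  simp

/-- The numbers `h_i - 1` and the coranks agree with multiplicity. -/
lemma count_eq (G : GData P ι) {c : P → ℕ} (hc : IsCr c) (j : ℕ) :
    ((Finset.univ : Finset ι).filter (fun i => G.a i = j)).card =
      ((Finset.univ : Finset P).filter (fun x => c x = j)).card := by
  have h := key_prod' G (PowerSeries.C 1) (PowerSeries.X ^ j)
  rw [lhs_eq hc j 1, prod_factor] at h
  have hA : PowerSeries.coeff 0 (∑ S : Finset P, PowerSeries.C ((1 : ℚ) ^ S.card) *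
      (PowerSeries.X ^ (eps c j S) * HH c S)) =
      2 ^ ((Finset.univ : Finset P).filter (fun x => c x = j)).card := by
    rw [← const_prod c j, prod_eq_sum, map_sum, map_sum]
    apply Finset.sum_congr rfl
    intro S _
    by_cases hS : eps c j S = 0
    · rw [hS, PowerSeries.coeff_C_mul, PowerSeries.coeff_C_mul]
      simp only [pow_zero, one_mul]
      rw [const_HH hc, if_pos (upper_of_eps_zero hc j S hS)]
      simp
    · rw [PowerSeries.coeff_C_mul, PowerSeries.coeff_C_mul, PowerSeries.coeff_X_pow_mul',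
        if_neg (by omega), PowerSeries.coeff_X_pow, if_neg (by omega)]
  have hB : PowerSeries.coeff 0 (gf (fun g : P → ℕ => Monotone g) *
      ∏ i, ((PowerSeries.X : PowerSeries ℚ) ^ (j - G.a i) +
      PowerSeries.C (1 : ℚ) * PowerSeries.X ^ (G.a i - j))) =
      2 ^ ((Finset.univ : Finset ι).filter (fun i => G.a i = j)).card := by
    rw [← const_prod G.a j, PowerSeries.coeff_zero_eq_constantCoeff_apply, map_mul,
      ← PowerSeries.coeff_zero_eq_constantCoeff_apply, const_mono, one_mul,
      ← PowerSeries.coeff_zero_eq_constantCoeff_apply]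
  have h1 : PowerSeries.X ^ (∑ x, min (c x) j) * (∑ S : Finset P, PowerSeries.C ((1 : ℚ) ^ S.card) *
      (PowerSeries.X ^ (eps c j S) * HH c S)) = PowerSeries.X ^ (∑ i, min (G.a i) j) *
      (gf (fun g : P → ℕ => Monotone g) *
      ∏ i, ((PowerSeries.X : PowerSeries ℚ) ^ (j - G.a i) +
      PowerSeries.C (1 : ℚ) * PowerSeries.X ^ (G.a i - j))) := by
    rw [h]; ring
  have h2 := cancel_X_pow _ _ _ _ h1 (by rw [hA]; positivity) (by rw [hB]; positivity)
  have h3 := congrArg (PowerSeries.coeff 0) h2
  rw [hA, hB] at h3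
  have h4 : (2 : ℕ) ^ ((Finset.univ : Finset P).filter (fun x => c x = j)).card =
      2 ^ ((Finset.univ : Finset ι).filter (fun i => G.a i = j)).card := by exact_mod_cast h3
  exact (Nat.pow_right_injective (le_refl 2) h4).symm

lemma prod_comp_eq (G : GData P ι) {c : P → ℕ} (hc : IsCr c) (f : ℕ → PowerSeries ℚ) :
    ∏ i, f (G.a i) = ∏ x, f (c x) := by
  have h : Multiset.map G.a (Finset.univ : Finset ι).val =
      Multiset.map c (Finset.univ : Finset P).val := by
    ext j
    rw [Multiset.count_map, Multiset.count_map]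
    have := count_eq G hc j
    rw [← Finset.filter_val, ← Finset.filter_val, Finset.card_val, Finset.card_val]
    have e1 : (Finset.univ : Finset ι).filter (fun i => j = G.a i) =
        (Finset.univ : Finset ι).filter (fun i => G.a i = j) := by
      ext; simp [eq_comm]
    have e2 : (Finset.univ : Finset P).filter (fun i => j = c i) =
        (Finset.univ : Finset P).filter (fun i => c i = j) := by
      ext; simp [eq_comm]
    rw [e1, e2, this]
  have h1 := congrArg (fun s => (Multiset.map f s).prod) h
  simp only [Multiset.map_map] at h1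
  exact h1

/-- The identity around level `j`. -/
lemma level_identity (G : GData P ι) {c : P → ℕ} (hc : IsCr c) (j : ℕ) (τ : ℚ) :
    ∑ S : Finset P, PowerSeries.C (τ ^ S.card) * (PowerSeries.X ^ (eps c j S) * HH c S) =
      gf (fun g : P → ℕ => Monotone g) *
      ∑ S : Finset P, PowerSeries.C (τ ^ S.card) * PowerSeries.X ^ (eps c j S) := by
  have h := key_prod' G (PowerSeries.C τ) (PowerSeries.X ^ j)
  rw [lhs_eq hc j τ, prod_comp_eq G hc (fun n => PowerSeries.X ^ j + PowerSeries.C τ *
    PowerSeries.X ^ n), prod_factor, prod_eq_sum] at h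
  apply mul_left_cancel₀ (pow_ne_zero (∑ x, min (c x) j) (PowerSeries.X_ne_zero (R := ℚ)))
  rw [h]
  ring

/-- The first coefficient. -/
lemma level_first (G : GData P ι) {c : P → ℕ} (hc : IsCr c) (j : ℕ) (τ : ℚ) :
    ∑ S : Finset P, (if eps c j S = 0 then τ ^ S.card *
      (((Finset.univ : Finset P).filter (fun x => Good S (Pi.single x 1 + base c S))).card : ℚ)
      else 0) +
    ∑ S : Finset P, (if eps c j S = 1 then τ ^ S.card *
      (if (∀ x ∈ S, ∀ y, x ≤ y → y ∈ S) then (1 : ℚ) else 0) else 0) =
    (((Finset.univ : Finset P).filter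
      (fun x => Monotone (Pi.single x 1 : P → ℕ))).card : ℚ) *
      ∑ S : Finset P, (if eps c j S = 0 then τ ^ S.card else 0) +
      ∑ S : Finset P, (if eps c j S = 1 then τ ^ S.card else 0) := by
  have h := congrArg (PowerSeries.coeff 1) (level_identity G hc j τ)
  rw [map_sum, PowerSeries.coeff_mul] at h
  have e1 : HasAntidiagonal.antidiagonal 1 = {(0, 1), (1, 0)} := by decide
  rw [e1, Finset.sum_insert (by decide), Finset.sum_singleton] at h
  simp only at h
  rw [const_mono, one_mul, coeff_gf, cnt_one, map_sum, map_sum] at h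
  rw [← Finset.sum_add_distrib]
  have e2 : ∀ S : Finset P, PowerSeries.coeff 1 (PowerSeries.C (τ ^ S.card) *
      (PowerSeries.X ^ (eps c j S) * HH c S)) =
      (if eps c j S = 0 then τ ^ S.card *
      (((Finset.univ : Finset P).filter (fun x => Good S (Pi.single x 1 + base c S))).card : ℚ)
      else 0) + (if eps c j S = 1 then τ ^ S.card *
      (if (∀ x ∈ S, ∀ y, x ≤ y → y ∈ S) then (1 : ℚ) else 0) else 0) := by
    intro S
    rw [PowerSeries.coeff_C_mul, PowerSeries.coeff_X_pow_mul']
    by_cases h0 : eps c j S = 0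
    · rw [if_pos (by omega), if_pos h0, if_neg (by omega), h0, Nat.sub_zero, add_zero]
      unfold HH
      rw [coeff_gf, cnt_one]
    · by_cases h1 : eps c j S = 1
      · rw [if_pos (by omega), if_neg h0, if_pos h1, h1, Nat.sub_self, const_HH hc, zero_add]
      · rw [if_neg (by omega), if_neg h0, if_neg h1]
        simp
  rw [Finset.sum_congr rfl (fun S _ => e2 S)] at h
  rw [h, add_comm]
  have e3 : ∀ S : Finset P, PowerSeries.coeff 1 (PowerSeries.C (τ ^ S.card) *
      (PowerSeries.X : PowerSeries ℚ) ^ (eps c j S)) = (if eps c j S = 1 then τ ^ S.card else 0) := by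
    intro S
    rw [PowerSeries.coeff_C_mul, PowerSeries.coeff_X_pow]
    by_cases h1 : eps c j S = 1
    · simp [h1]
    · rw [if_neg (fun h => h1 h.symm), if_neg h1, mul_zero]
  have e4 : ∀ S : Finset P, PowerSeries.coeff 0 (PowerSeries.C (τ ^ S.card) *
      (PowerSeries.X : PowerSeries ℚ) ^ (eps c j S)) = (if eps c j S = 0 then τ ^ S.card else 0) := by
    intro S
    rw [PowerSeries.coeff_C_mul, PowerSeries.coeff_X_pow]
    by_cases h1 : eps c j S = 0
    · simp [h1]
    · rw [if_neg (fun h => h1 h.symm), if_neg h1, mul_zero]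
  rw [Finset.sum_congr rfl (fun S _ => e3 S), Finset.sum_congr rfl (fun S _ => e4 S)]
  congr!

end

end Pool.Agent.W_MP_448cb3_co
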