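import Mathlib
import Pool.Agent.W_MP_448cb3_co.Levels

set_option autoImplicit false

/-!
Evaluating the first coefficient.
-/

namespace Pool.Agent.W_MP_448cb3_co

open Finset
open scoped Classical

noncomputable section

variable {P : Type} [Fintype P]

/-- The sum of `τ ^ |S|` over an interval of subsets. -/
lemma sumAB (τ : ℚ) (A B : Finset P) (hAB : Disjoint A B) :
    ∑ S : Finset P, (if A ⊆ S ∧ Disjoint S B then τ ^ S.card else 0) =
      τ ^ A.card * (1 + τ) ^ (Fintype.card P - A.card - B.card) := by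
  have h := Fintype.prod_add (fun x : P => if x ∈ B then (0 : ℚ) else τ)
    (fun x : P => if x ∈ A then (0 : ℚ) else 1)
  have h1 : ∑ t : Finset P, (∏ a ∈ t, (if a ∈ B then (0 : ℚ) else τ)) *
      ∏ a ∈ tᶜ, (if a ∈ A then (0 : ℚ) else 1) =
      ∑ S : Finset P, (if A ⊆ S ∧ Disjoint S B then τ ^ S.card else 0) := by
    apply Finset.sum_congr rfl
    intro S _
    split_ifs with hS
    · rw [← Finset.prod_const, Finset.prod_congr rfl (g := fun _ => τ),
        Finset.prod_congr (s₁ := Sᶜ) rfl (g := fun _ => (1 : ℚ))]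
      · simp
      · intro x hx
        rw [if_neg]
        intro hxA
        exact (Finset.mem_compl.1 hx) (hS.1 hxA)
      · intro x hx
        rw [if_neg]
        intro hxB
        exact (Finset.disjoint_left.1 hS.2 hx) hxB
    · rw [not_and_or] at hS
      rcases hS with hS | hS
      · rw [Finset.not_subset] at hS
        obtain ⟨x, hxA, hxS⟩ := hS
        have : ∏ a ∈ Sᶜ, (if a ∈ A then (0 : ℚ) else 1) = 0 :=
          Finset.prod_eq_zero (Finset.mem_compl.2 hxS) (by rw [if_pos hxA])
        rw [this, mul_zero]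
      · rw [Finset.not_disjoint_iff] at hS
        obtain ⟨x, hxS, hxB⟩ := hS
        have : ∏ a ∈ S, (if a ∈ B then (0 : ℚ) else τ) = 0 :=
          Finset.prod_eq_zero hxS (by rw [if_pos hxB])
        rw [this, zero_mul]
  rw [← h1, ← h]
  have h2 : ∀ x : P, ((if x ∈ B then (0 : ℚ) else τ) + (if x ∈ A then (0 : ℚ) else 1)) =
      (if x ∈ A then τ else 1) * (if x ∈ (A ∪ B)ᶜ then (1 + τ) else 1) := by
    intro x
    have hd : x ∈ A → x ∉ B := fun h1 h2 => Finset.disjoint_left.1 hAB h1 h2
    by_cases hA : x ∈ A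
    · have hB := hd hA
      simp [hA, hB]
    · by_cases hB : x ∈ B
      · simp [hA, hB]
      · simp [hA, hB, add_comm]
  rw [Finset.prod_congr rfl (fun x _ => h2 x), Finset.prod_mul_distrib, Finset.prod_ite_mem,
    Finset.prod_ite_mem, Finset.univ_inter, Finset.univ_inter, Finset.prod_const,
    Finset.prod_const, Finset.card_compl, Finset.card_union_of_disjoint hAB, Nat.sub_sub]

/-- A sum of natural numbers is one exactly when one term is one and the others vanish. -/
lemma sum_eq_one_ind (e : P → ℕ) :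
    (if ∑ x, e x = 1 then (1 : ℚ) else 0) =
      ∑ x, (if (e x = 1 ∧ ∀ u, u ≠ x → e u = 0) then (1 : ℚ) else 0) := by
  split_ifs with h
  · have hex : ∃ x, e x ≠ 0 := by
      by_contra hcon
      push Not at hcon
      simp [hcon] at h
    obtain ⟨x, hx⟩ := hex
    have e1 : ∑ y, e y = e x + ∑ y ∈ Finset.univ.erase x, e y := by
      rw [Finset.add_sum_erase _ _ (Finset.mem_univ x)]
    have hothers : ∀ u, u ≠ x → e u = 0 := by
      intro u hu
      have h3 : e u ≤ ∑ y ∈ Finset.univ.erase x, e y :=
        Finset.single_le_sum (f := e) (fun _ _ => Nat.zero_le _) (by simp [hu])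
      omega
    have hx1 : e x = 1 := by
      have : ∑ y ∈ Finset.univ.erase x, e y = 0 :=
        Finset.sum_eq_zero (fun u hu => hothers u (Finset.ne_of_mem_erase hu))
      omega
    rw [Finset.sum_eq_single x]
    · rw [if_pos ⟨hx1, hothers⟩]
    · intro y _ hy
      rw [if_neg]
      rintro ⟨h1, _⟩
      rw [hothers y hy] at h1
      exact absurd h1 (by norm_num)
    · intro h; exact absurd (Finset.mem_univ x) h
  · symm
    apply Finset.sum_eq_zero
    intro x _
    rw [if_neg]
    rintro ⟨h1, h2⟩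
    apply h
    rw [Finset.sum_eq_single x, h1]
    · intro u _ hu; exact h2 u hu
    · intro h; exact absurd (Finset.mem_univ x) h

variable [PartialOrder P]

/-- Upper neighbours. -/
def up (c : P → ℕ) (x : P) : Finset P := Finset.univ.filter (fun z => x < z ∧ c x = c z + 1)

/-- Lower neighbours. -/
def dn (c : P → ℕ) (x : P) : Finset P := Finset.univ.filter (fun z => z < x ∧ c z = c x + 1)

lemma mem_up {c : P → ℕ} {x z : P} : z ∈ up c x ↔ x < z ∧ c x = c z + 1 := by
  simp [up]

lemma mem_dn {c : P → ℕ} {x z : P} : z ∈ dn c x ↔ z < x ∧ c z = c x + 1 := by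
  simp [dn]

/-- Grading data: a corank function dropping by one along covers. -/
structure Gr (c : P → ℕ) : Prop where
  anti : ∀ x y, x < y → c y < c x
  lo : ∀ x y, y < x → ∃ z, y ≤ z ∧ z < x ∧ c z = c x + 1
  hi : ∀ x y, x < y → ∃ z, x < z ∧ z ≤ y ∧ c x = c z + 1
  step : ∀ x, 0 < c x → ∃ y, x < y

lemma exists_Gr {ι : Type} [Fintype ι] (G : GData P ι) {c : P → ℕ} (hc : IsCr c) : Gr c := by
  refine ⟨hc.anti, ?_, ?_, ?_⟩
  · intro x y hxy
    obtain ⟨z, hz1, hz2⟩ := exists_le_covBy_of_lt hxy
    exact ⟨z, hz1, hz2.lt, graded G hc x z hz2⟩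
  · intro x y hxy
    obtain ⟨z, hz1, hz2⟩ := exists_covBy_le_of_lt hxy
    exact ⟨z, hz1.lt, hz2, graded G hc z x hz1⟩
  · intro x hx
    obtain ⟨y, hy, _⟩ := hc.step x hx
    exact ⟨y, hy⟩

/-- Adding one at `x` to the least map on `S` stays good. -/
def Extra (S : Finset P) (x : P) : Prop :=
  (x ∈ S ∧ ∀ y ∈ S, ¬ y < x) ∨ (x ∉ S ∧ ∀ y, y ∉ S → ¬ x < y)

omit [Fintype P] in
lemma good_single_iff {c : P → ℕ} (hc : Gr c) (S : Finset P)
    (hS : ∀ x ∈ S, ∀ y, x ≤ y → y ∈ S) (x : P) :
    Good S (Pi.single x 1 + base c S) ↔ Extra S x := by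
  constructor
  · rintro ⟨_, h2, h3⟩
    by_cases hx : x ∈ S
    · left
      refine ⟨hx, ?_⟩
      intro y hy hyx
      obtain ⟨z, hz1, hz2, hz3⟩ := hc.lo x y hyx
      have hz : z ∈ S := hS y hy z hz1
      have h4 := h2 z hz x hx hz2
      have hzx : z ≠ x := hz2.ne
      simp only [Pi.add_apply, base, hx, hz, if_true, Pi.single_eq_same,
        Pi.single_eq_of_ne hzx] at h4
      omega
    · right
      refine ⟨hx, ?_⟩
      intro y hy hxy
      have h4 := h3 x hx y hy hxy.le
      have hyx : y ≠ x := hxy.ne'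
      simp only [Pi.add_apply, base, hx, hy, if_false, Pi.single_eq_same,
        Pi.single_eq_of_ne hyx] at h4
      omega
  · intro h
    refine ⟨hS, ?_, ?_⟩
    · intro u hu v hv huv
      have h1 := hc.anti u v huv
      have hvx : v ≠ x := by
        rintro rfl
        rcases h with ⟨_, h⟩ | ⟨h, _⟩
        · exact h u hu huv
        · exact h hv
      simp only [Pi.add_apply, base, hu, hv, if_true, Pi.single_eq_of_ne hvx]
      omega
    · intro u hu v hv huv
      simp only [Pi.add_apply, base, hu, hv, if_false, add_zero]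
      by_cases hux : u = x
      · subst hux
        have hvu : v = u := by
          by_contra hne
          rcases h with ⟨h, _⟩ | ⟨_, h⟩
          · exact hu h
          · exact h v hv (lt_of_le_of_ne huv (Ne.symm hne))
        rw [hvu]
      · rw [Pi.single_eq_of_ne hux]
        exact Nat.zero_le _

omit [Fintype P] in
lemma mono_single_iff (x : P) : Monotone (Pi.single x 1 : P → ℕ) ↔ ∀ y, ¬ x < y := by
  constructor
  · intro h y hxy
    have h1 := h hxy.le
    rw [Pi.single_eq_same, Pi.single_eq_of_ne hxy.ne'] at h1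
    omega
  · intro h u v huv
    by_cases hux : u = x
    · subst hux
      have : v = u := by
        by_contra hne
        exact h v (lt_of_le_of_ne huv (Ne.symm hne))
      rw [this]
    · rw [Pi.single_eq_of_ne hux]
      exact Nat.zero_le _

end

end Pool.Agent.W_MP_448cb3_co
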