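import Mathlib
import Pool.Agent.W_MP_448cb3_co.Sums

set_option autoImplicit false

/-!
The contribution of each element to the first coefficient.
-/

namespace Pool.Agent.W_MP_448cb3_co

open Finset
open scoped Classical

noncomputable section

variable {P : Type} [Fintype P] [PartialOrder P]

/-- Elements of corank less than `j`. -/
def F0 (c : P → ℕ) (j : ℕ) : Finset P := Finset.univ.filter (fun x => c x < j)

/-- Elements of corank greater than `j`. -/
def G0 (c : P → ℕ) (j : ℕ) : Finset P := Finset.univ.filter (fun x => j < c x)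

/-- Number of elements of corank `j`. -/
def bb (c : P → ℕ) (j : ℕ) : ℕ := (Finset.univ.filter (fun x => c x = j)).card

omit [PartialOrder P] in
lemma mem_F0 {c : P → ℕ} {j : ℕ} {x : P} : x ∈ F0 c j ↔ c x < j := by simp [F0]

omit [PartialOrder P] in
lemma mem_G0 {c : P → ℕ} {j : ℕ} {x : P} : x ∈ G0 c j ↔ j < c x := by simp [G0]

omit [PartialOrder P] in
lemma disj_FG (c : P → ℕ) (j : ℕ) : Disjoint (F0 c j) (G0 c j) := by
  rw [Finset.disjoint_left]
  intro x hx hx'
  rw [mem_F0] at hx
  rw [mem_G0] at hx'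
  omega

omit [PartialOrder P] in
lemma card_split (c : P → ℕ) (j : ℕ) :
    (F0 c j).card + bb c j + (G0 c j).card = Fintype.card P := by
  have h1 : (Finset.univ : Finset P) = (F0 c j ∪ Finset.univ.filter (fun x => c x = j)) ∪ G0 c j := by
    ext x
    simp only [Finset.mem_univ, Finset.mem_union, Finset.mem_filter, mem_F0, mem_G0, true_iff,
      true_and]
    omega
  rw [← Finset.card_univ, h1, Finset.card_union_of_disjoint, Finset.card_union_of_disjoint]
  · rfl
  · rw [Finset.disjoint_left]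
    intro x hx hx'
    simp only [mem_F0, Finset.mem_filter, Finset.mem_univ, true_and] at hx hx'
    omega
  · rw [Finset.disjoint_left]
    intro x hx hx'
    simp only [mem_F0, mem_G0, Finset.mem_filter, Finset.mem_univ, true_and,
      Finset.mem_union] at hx hx'
    omega

/-- The term of `x` in the energy of `S`. -/
def te (c : P → ℕ) (j : ℕ) (S : Finset P) (x : P) : ℕ := if x ∈ S then c x - j else j - c x

/-- All the energy is one unit at `x`. -/
def TT (c : P → ℕ) (j : ℕ) (S : Finset P) (x : P) : Prop :=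
  te c j S x = 1 ∧ ∀ u, u ≠ x → te c j S u = 0

/-- `S` is a filter. -/
def Up (S : Finset P) : Prop := ∀ x ∈ S, ∀ y, x ≤ y → y ∈ S

omit [PartialOrder P] in
lemma eps_zero_iff' (c : P → ℕ) (j : ℕ) (S : Finset P) :
    eps c j S = 0 ↔ F0 c j ⊆ S ∧ Disjoint S (G0 c j) := by
  rw [eps_zero_iff]
  constructor
  · intro h
    constructor
    · intro x hx
      rw [mem_F0] at hx
      by_contra hxS
      have := (h x).2 hxS
      omega
    · rw [Finset.disjoint_left]
      intro x hx hx'
      rw [mem_G0] at hx'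
      have := (h x).1 hx
      omega
  · rintro ⟨h1, h2⟩ x
    constructor
    · intro hx
      by_contra hlt
      push Not at hlt
      exact Finset.disjoint_left.1 h2 hx (mem_G0.2 hlt)
    · intro hx
      by_contra hlt
      push Not at hlt
      exact hx (h1 (mem_F0.2 hlt))

/-- First kind of contribution. -/
def val0 (c : P → ℕ) (j : ℕ) (τ : ℚ) (x : P) : ℚ :=
  ∑ S : Finset P, (if eps c j S = 0 ∧ Extra S x then τ ^ S.card else 0)

/-- Second kind of contribution. -/
def val1 (c : P → ℕ) (j : ℕ) (τ : ℚ) (x : P) : ℚ :=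
  ∑ S : Finset P, (if TT c j S x ∧ Up S then τ ^ S.card else 0)

/-- Third kind of contribution. -/
def val2 (c : P → ℕ) (j : ℕ) (τ : ℚ) (x : P) : ℚ :=
  ∑ S : Finset P, (if TT c j S x then τ ^ S.card else 0)

omit [PartialOrder P] in
lemma sum_congr_prop (τ : ℚ) (A B : Finset P → Prop) [DecidablePred A] [DecidablePred B]
    (h : ∀ S, A S ↔ B S) :
    ∑ S : Finset P, (if A S then τ ^ S.card else 0) =
      ∑ S : Finset P, (if B S then τ ^ S.card else 0) := by
  apply Finset.sum_congr rfl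
  intro S _
  by_cases hA : A S
  · rw [if_pos hA, if_pos ((h S).1 hA)]
  · rw [if_neg hA, if_neg (fun hB => hA ((h S).2 hB))]

omit [PartialOrder P] in
lemma sum_eps_zero (c : P → ℕ) (j : ℕ) (τ : ℚ) :
    ∑ S : Finset P, (if eps c j S = 0 then τ ^ S.card else 0) =
      τ ^ (F0 c j).card * (1 + τ) ^ (bb c j) := by
  have h1 := sumAB τ (F0 c j) (G0 c j) (disj_FG c j)
  have h2 := card_split c j
  have h3 : Fintype.card P - (F0 c j).card - (G0 c j).card = bb c j := by omega
  rw [h3] at h1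
  rw [← h1]
  apply Finset.sum_congr rfl
  intro S _
  simp only [eps_zero_iff']

lemma val0_mid {c : P → ℕ} (hc : Gr c) (j : ℕ) (τ : ℚ) (x : P) (hx : c x = j) :
    val0 c j τ x = τ ^ (F0 c j).card * (1 + τ) ^ (bb c j) := by
  rw [← sum_eps_zero]
  unfold val0
  apply Finset.sum_congr rfl
  intro S _
  have : (eps c j S = 0 ∧ Extra S x) ↔ eps c j S = 0 := by
    constructor
    · exact fun h => h.1
    · intro h
      refine ⟨h, ?_⟩
      rw [eps_zero_iff] at h
      by_cases hxS : x ∈ S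
      · left
        refine ⟨hxS, fun y hy hyx => ?_⟩
        have h1 := hc.anti y x hyx
        have h2 := (h y).1 hy
        omega
      · right
        refine ⟨hxS, fun y hy hxy => ?_⟩
        have h1 := hc.anti x y hxy
        have h2 := (h y).2 hy
        omega
  simp only [this]

lemma dn_sub {c : P → ℕ} {j : ℕ} {x : P} (hx : c x + 1 = j) :
    dn c x ⊆ Finset.univ.filter (fun z => c z = j) := by
  intro z hz
  rw [mem_dn] at hz
  simp only [Finset.mem_filter, Finset.mem_univ, true_and]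
  omega

lemma up_sub {c : P → ℕ} {j : ℕ} {x : P} (hx : c x = j + 1) :
    up c x ⊆ Finset.univ.filter (fun z => c z = j) := by
  intro z hz
  rw [mem_up] at hz
  simp only [Finset.mem_filter, Finset.mem_univ, true_and]
  omega

lemma card_dn_le {c : P → ℕ} {j : ℕ} {x : P} (hx : c x + 1 = j) : (dn c x).card ≤ bb c j :=
  Finset.card_le_card (dn_sub hx)

lemma card_up_le {c : P → ℕ} {j : ℕ} {x : P} (hx : c x = j + 1) : (up c x).card ≤ bb c j :=
  Finset.card_le_card (up_sub hx)

lemma val0_dn {c : P → ℕ} (hc : Gr c) (j : ℕ) (τ : ℚ) (x : P) (hx : c x + 1 = j) :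
    val0 c j τ x = τ ^ (F0 c j).card * (1 + τ) ^ (bb c j - (dn c x).card) := by
  have hd : Disjoint (G0 c j) (dn c x) := by
    rw [Finset.disjoint_left]
    intro z hz hz'
    rw [mem_G0] at hz
    rw [mem_dn] at hz'
    omega
  have hd2 : Disjoint (F0 c j) (G0 c j ∪ dn c x) := by
    rw [Finset.disjoint_left]
    intro z hz hz'
    rw [mem_F0] at hz
    rw [Finset.mem_union, mem_G0, mem_dn] at hz'
    omega
  have h1 := sumAB τ (F0 c j) (G0 c j ∪ dn c x) hd2
  have h2 := card_split c j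
  have h4 := card_dn_le (P := P) hx
  have h3 : Fintype.card P - (F0 c j).card - (G0 c j ∪ dn c x).card = bb c j - (dn c x).card := by
    rw [Finset.card_union_of_disjoint hd]
    omega
  rw [h3] at h1
  rw [← h1]
  unfold val0
  apply Finset.sum_congr rfl
  intro S _
  have : (eps c j S = 0 ∧ Extra S x) ↔ (F0 c j ⊆ S ∧ Disjoint S (G0 c j ∪ dn c x)) := by
    rw [eps_zero_iff', Finset.disjoint_union_right]
    constructor
    · rintro ⟨⟨a1, a2⟩, a3⟩
      refine ⟨a1, a2, ?_⟩
      rw [Finset.disjoint_left]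
      intro z hz hz'
      rw [mem_dn] at hz'
      rcases a3 with ⟨_, a3⟩ | ⟨a3, _⟩
      · exact a3 z hz hz'.1
      · exact a3 (a1 (mem_F0.2 (by omega)))
    · rintro ⟨a1, a2, a3⟩
      refine ⟨⟨a1, a2⟩, ?_⟩
      left
      refine ⟨a1 (mem_F0.2 (by omega)), fun y hy hyx => ?_⟩
      have h5 := hc.anti y x hyx
      have h6 : ¬ j < c y := fun h => Finset.disjoint_left.1 a2 hy (mem_G0.2 h)
      exact Finset.disjoint_left.1 a3 hy (mem_dn.2 ⟨hyx, by omega⟩)
  simp only [this]

lemma val0_up {c : P → ℕ} (hc : Gr c) (j : ℕ) (τ : ℚ) (x : P) (hx : c x = j + 1) :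
    val0 c j τ x = τ ^ ((F0 c j).card + (up c x).card) * (1 + τ) ^ (bb c j - (up c x).card) := by
  have hd : Disjoint (F0 c j) (up c x) := by
    rw [Finset.disjoint_left]
    intro z hz hz'
    rw [mem_F0] at hz
    rw [mem_up] at hz'
    omega
  have hd2 : Disjoint (F0 c j ∪ up c x) (G0 c j) := by
    rw [Finset.disjoint_left]
    intro z hz hz'
    rw [mem_G0] at hz'
    rw [Finset.mem_union, mem_F0, mem_up] at hz
    omega
  have h1 := sumAB τ (F0 c j ∪ up c x) (G0 c j) hd2
  have h2 := card_split c j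
  have h4 := card_up_le (P := P) hx
  have h5 : (F0 c j ∪ up c x).card = (F0 c j).card + (up c x).card :=
    Finset.card_union_of_disjoint hd
  have h3 : Fintype.card P - (F0 c j ∪ up c x).card - (G0 c j).card = bb c j - (up c x).card := by
    omega
  rw [h3, h5] at h1
  rw [← h1]
  unfold val0
  apply Finset.sum_congr rfl
  intro S _
  have : (eps c j S = 0 ∧ Extra S x) ↔ (F0 c j ∪ up c x ⊆ S ∧ Disjoint S (G0 c j)) := by
    rw [eps_zero_iff', Finset.union_subset_iff]
    constructor
    · rintro ⟨⟨a1, a2⟩, a3⟩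
      refine ⟨⟨a1, ?_⟩, a2⟩
      intro z hz
      rw [mem_up] at hz
      rcases a3 with ⟨a3, _⟩ | ⟨_, a3⟩
      · exact absurd (mem_G0.2 (by omega)) (Finset.disjoint_left.1 a2 a3)
      · by_contra hzS
        exact a3 z hzS hz.1
    · rintro ⟨⟨a1, a3⟩, a2⟩
      refine ⟨⟨a1, a2⟩, ?_⟩
      right
      refine ⟨fun h => Finset.disjoint_left.1 a2 h (mem_G0.2 (by omega)), fun y hy hxy => ?_⟩
      have h5 := hc.anti x y hxy
      have h6 : ¬ c y < j := fun h => hy (a1 (mem_F0.2 h))
      exact hy (a3 (mem_up.2 ⟨hxy, by omega⟩))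
  simp only [this]

lemma val0_low_min {c : P → ℕ} (j : ℕ) (τ : ℚ) (x : P) (hx : c x + 1 < j)
    (hmin : ∀ y, ¬ y < x) :
    val0 c j τ x = τ ^ (F0 c j).card * (1 + τ) ^ (bb c j) := by
  rw [← sum_eps_zero]
  unfold val0
  apply Finset.sum_congr rfl
  intro S _
  have : (eps c j S = 0 ∧ Extra S x) ↔ eps c j S = 0 := by
    constructor
    · exact fun h => h.1
    · intro h
      refine ⟨h, ?_⟩
      rw [eps_zero_iff'] at h
      left
      exact ⟨h.1 (mem_F0.2 (by omega)), fun y _ => hmin y⟩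
  simp only [this]

lemma val0_low {c : P → ℕ} (hc : Gr c) (j : ℕ) (τ : ℚ) (x : P) (hx : c x + 1 < j)
    (hmin : ∃ y, y < x) : val0 c j τ x = 0 := by
  unfold val0
  apply Finset.sum_eq_zero
  intro S _
  rw [if_neg]
  rintro ⟨h, h2⟩
  rw [eps_zero_iff'] at h
  obtain ⟨y, hy⟩ := hmin
  obtain ⟨z, _, hz1, hz2⟩ := hc.lo x y hy
  rcases h2 with ⟨_, h2⟩ | ⟨h2, _⟩
  · exact h2 z (h.1 (mem_F0.2 (by omega))) hz1
  · exact h2 (h.1 (mem_F0.2 (by omega)))

lemma val0_high {c : P → ℕ} (hc : Gr c) (j : ℕ) (τ : ℚ) (x : P) (hx : j + 1 < c x) :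
    val0 c j τ x = 0 := by
  unfold val0
  apply Finset.sum_eq_zero
  intro S _
  rw [if_neg]
  rintro ⟨h, h2⟩
  rw [eps_zero_iff'] at h
  obtain ⟨y, hy⟩ := hc.step x (by omega)
  obtain ⟨z, hz1, _, hz2⟩ := hc.hi x y hy
  rcases h2 with ⟨h2, _⟩ | ⟨_, h2⟩
  · exact Finset.disjoint_left.1 h.2 h2 (mem_G0.2 (by omega))
  · exact h2 z (fun hz => Finset.disjoint_left.1 h.2 hz (mem_G0.2 (by omega))) hz1

omit [PartialOrder P] in
lemma te_zero_iff (c : P → ℕ) (j : ℕ) (S : Finset P) (u : P) :
    te c j S u = 0 ↔ (u ∈ S → c u ≤ j) ∧ (u ∉ S → j ≤ c u) := by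
  unfold te
  by_cases hu : u ∈ S
  · rw [if_pos hu]
    constructor
    · intro h; exact ⟨fun _ => by omega, fun h' => absurd hu h'⟩
    · intro h; have := h.1 hu; omega
  · rw [if_neg hu]
    constructor
    · intro h; exact ⟨fun h' => absurd h' hu, fun _ => by omega⟩
    · intro h; have := h.2 hu; omega

omit [PartialOrder P] in
lemma TT_up_iff (c : P → ℕ) (j : ℕ) (S : Finset P) (x : P) (hx : c x = j + 1) :
    TT c j S x ↔ (insert x (F0 c j) ⊆ S ∧ Disjoint S ((G0 c j).erase x)) := by
  unfold TT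
  have h0 : te c j S x = 1 ↔ x ∈ S := by
    unfold te
    split_ifs with h
    · simp [h, hx]
    · simp only [h, iff_false]
      omega
  rw [h0, Finset.insert_subset_iff]
  constructor
  · rintro ⟨a1, a2⟩
    refine ⟨⟨a1, ?_⟩, ?_⟩
    · intro u hu
      rw [mem_F0] at hu
      have hux : u ≠ x := by rintro rfl; omega
      have := (te_zero_iff c j S u).1 (a2 u hux)
      by_contra hS
      have := this.2 hS
      omega
    · rw [Finset.disjoint_left]
      intro u hu hu'
      rw [Finset.mem_erase, mem_G0] at hu'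
      have := (te_zero_iff c j S u).1 (a2 u hu'.1)
      have := this.1 hu
      omega
  · rintro ⟨⟨a1, a2⟩, a3⟩
    refine ⟨a1, ?_⟩
    intro u hux
    rw [te_zero_iff]
    constructor
    · intro hu
      by_contra h
      exact Finset.disjoint_left.1 a3 hu (Finset.mem_erase.2 ⟨hux, mem_G0.2 (by omega)⟩)
    · intro hu
      by_contra h
      exact hu (a2 (mem_F0.2 (by omega)))

omit [PartialOrder P] in
lemma TT_dn_iff (c : P → ℕ) (j : ℕ) (S : Finset P) (x : P) (hx : c x + 1 = j) :
    TT c j S x ↔ ((F0 c j).erase x ⊆ S ∧ Disjoint S (insert x (G0 c j))) := by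
  unfold TT
  have h0 : te c j S x = 1 ↔ x ∉ S := by
    unfold te
    split_ifs with h
    · simp only [h, not_true, iff_false]
      omega
    · simp only [h, not_false_iff, iff_true]
      omega
  rw [h0, Finset.disjoint_insert_right]
  constructor
  · rintro ⟨a1, a2⟩
    refine ⟨?_, a1, ?_⟩
    · intro u hu
      rw [Finset.mem_erase, mem_F0] at hu
      have := (te_zero_iff c j S u).1 (a2 u hu.1)
      by_contra hS
      have := this.2 hS
      omega
    · rw [Finset.disjoint_left]
      intro u hu hu'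
      rw [mem_G0] at hu'
      have hux : u ≠ x := by rintro rfl; omega
      have := (te_zero_iff c j S u).1 (a2 u hux)
      have := this.1 hu
      omega
  · rintro ⟨a2, a1, a3⟩
    refine ⟨a1, ?_⟩
    intro u hux
    rw [te_zero_iff]
    constructor
    · intro hu
      by_contra h
      exact Finset.disjoint_left.1 a3 hu (mem_G0.2 (by omega))
    · intro hu
      by_contra h
      exact hu (a2 (Finset.mem_erase.2 ⟨hux, mem_F0.2 (by omega)⟩))

omit [PartialOrder P] in
lemma TT_false (c : P → ℕ) (j : ℕ) (S : Finset P) (x : P) (hx : c x ≠ j + 1) (hx' : c x + 1 ≠ j) :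
    ¬ TT c j S x := by
  rintro ⟨h, _⟩
  unfold te at h
  split_ifs at h <;> omega

lemma up_iff_up {c : P → ℕ} (hc : Gr c) (j : ℕ) (S : Finset P) (x : P) (hx : c x = j + 1) :
    (TT c j S x ∧ Up S) ↔
      (insert x (F0 c j) ∪ up c x ⊆ S ∧ Disjoint S ((G0 c j).erase x)) := by
  rw [TT_up_iff c j S x hx, Finset.union_subset_iff]
  constructor
  · rintro ⟨⟨a1, a2⟩, a3⟩
    refine ⟨⟨a1, ?_⟩, a2⟩
    intro z hz
    rw [mem_up] at hz
    exact a3 x (a1 (Finset.mem_insert_self _ _)) z hz.1.le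
  · rintro ⟨⟨a1, a3⟩, a2⟩
    refine ⟨⟨a1, a2⟩, ?_⟩
    intro u hu v huv
    rcases lt_or_eq_of_le huv with h | h
    · have h1 := hc.anti u v h
      by_cases hux : u = x
      · subst hux
        by_cases hv : c v = j
        · exact a3 (mem_up.2 ⟨h, by omega⟩)
        · exact a1 (Finset.mem_insert_of_mem (mem_F0.2 (by omega)))
      · have h2 : ¬ j < c u := fun h' =>
          Finset.disjoint_left.1 a2 hu (Finset.mem_erase.2 ⟨hux, mem_G0.2 h'⟩)
        exact a1 (Finset.mem_insert_of_mem (mem_F0.2 (by omega)))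
    · rw [← h]; exact hu

lemma up_iff_dn {c : P → ℕ} (hc : Gr c) (j : ℕ) (S : Finset P) (x : P) (hx : c x + 1 = j) :
    (TT c j S x ∧ Up S) ↔
      ((F0 c j).erase x ⊆ S ∧ Disjoint S (insert x (G0 c j) ∪ dn c x)) := by
  rw [TT_dn_iff c j S x hx, Finset.disjoint_union_right]
  constructor
  · rintro ⟨⟨a1, a2⟩, a3⟩
    refine ⟨a1, a2, ?_⟩
    rw [Finset.disjoint_left]
    intro z hz hz'
    rw [mem_dn] at hz'
    have h1 := a3 z hz x hz'.1.le
    exact Finset.disjoint_left.1 a2 h1 (Finset.mem_insert_self _ _)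
  · rintro ⟨a1, a2, a3⟩
    refine ⟨⟨a1, a2⟩, ?_⟩
    intro u hu v huv
    rcases lt_or_eq_of_le huv with h | h
    · have h1 := hc.anti u v h
      have h2 : ¬ j < c u := fun h' =>
        Finset.disjoint_left.1 a2 hu (Finset.mem_insert_of_mem (mem_G0.2 h'))
      by_cases hvx : v = x
      · subst hvx
        exfalso
        exact Finset.disjoint_left.1 a3 hu (mem_dn.2 ⟨h, by omega⟩)
      · exact a1 (Finset.mem_erase.2 ⟨hvx, mem_F0.2 (by omega)⟩)
    · rw [← h]; exact hu

end

end Pool.Agent.W_MP_448cb3_co
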