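import Mathlib
import Pool.Agent.W_MP_448cb3_co.Vals

set_option autoImplicit false

/-!
The weight identity.
-/

namespace Pool.Agent.W_MP_448cb3_co

open Finset
open scoped Classical

noncomputable section

variable {P : Type} [Fintype P] [PartialOrder P]

omit [PartialOrder P] in
lemma val2_up (c : P → ℕ) (j : ℕ) (τ : ℚ) (x : P) (hx : c x = j + 1) :
    ∑ S : Finset P, (if TT c j S x then τ ^ S.card else 0) =
      τ ^ ((F0 c j).card + 1) * (1 + τ) ^ (bb c j) := by
  have hxF : x ∉ F0 c j := by rw [mem_F0]; omega
  have hxG : x ∈ G0 c j := by rw [mem_G0]; omega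
  have hd : Disjoint (insert x (F0 c j)) ((G0 c j).erase x) := by
    rw [Finset.disjoint_left]
    intro z hz hz'
    rw [Finset.mem_insert, mem_F0] at hz
    rw [Finset.mem_erase, mem_G0] at hz'
    rcases hz with hz | hz
    · exact hz'.1 hz
    · omega
  have h1 := sumAB τ _ _ hd
  have h2 := card_split c j
  have h3 := Finset.card_insert_of_notMem hxF
  have h4 := Finset.card_erase_of_mem hxG
  have h5 : 0 < (G0 c j).card := Finset.card_pos.2 ⟨x, hxG⟩
  have h6 : Fintype.card P - (insert x (F0 c j)).card - ((G0 c j).erase x).card = bb c j := by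
    omega
  rw [h6, h3] at h1
  rw [← h1]
  exact sum_congr_prop τ _ _ (fun S => TT_up_iff c j S x hx)

omit [PartialOrder P] in
lemma val2_dn (c : P → ℕ) (j : ℕ) (τ : ℚ) (x : P) (hx : c x + 1 = j) :
    ∑ S : Finset P, (if TT c j S x then τ ^ S.card else 0) =
      τ ^ ((F0 c j).card - 1) * (1 + τ) ^ (bb c j) := by
  have hxF : x ∈ F0 c j := by rw [mem_F0]; omega
  have hxG : x ∉ G0 c j := by rw [mem_G0]; omega
  have hd : Disjoint ((F0 c j).erase x) (insert x (G0 c j)) := by
    rw [Finset.disjoint_left]
    intro z hz hz'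
    rw [Finset.mem_insert, mem_G0] at hz'
    rw [Finset.mem_erase, mem_F0] at hz
    rcases hz' with hz' | hz'
    · exact hz.1 hz'
    · omega
  have h1 := sumAB τ _ _ hd
  have h2 := card_split c j
  have h3 := Finset.card_insert_of_notMem hxG
  have h4 := Finset.card_erase_of_mem hxF
  have h5 : 0 < (F0 c j).card := Finset.card_pos.2 ⟨x, hxF⟩
  have h6 : Fintype.card P - ((F0 c j).erase x).card - (insert x (G0 c j)).card = bb c j := by
    omega
  rw [h6, h4] at h1
  rw [← h1]
  exact sum_congr_prop τ _ _ (fun S => TT_dn_iff c j S x hx)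

lemma val1_up {c : P → ℕ} (hc : Gr c) (j : ℕ) (τ : ℚ) (x : P) (hx : c x = j + 1) :
    val1 c j τ x =
      τ ^ ((F0 c j).card + 1 + (up c x).card) * (1 + τ) ^ (bb c j - (up c x).card) := by
  have hxF : x ∉ F0 c j := by rw [mem_F0]; omega
  have hxG : x ∈ G0 c j := by rw [mem_G0]; omega
  have hd0 : Disjoint (insert x (F0 c j)) (up c x) := by
    rw [Finset.disjoint_left]
    intro z hz hz'
    rw [Finset.mem_insert, mem_F0] at hz
    rw [mem_up] at hz'
    rcases hz with hz | hz
    · subst hz; exact lt_irrefl _ hz'.1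
    · omega
  have hd : Disjoint (insert x (F0 c j) ∪ up c x) ((G0 c j).erase x) := by
    rw [Finset.disjoint_left]
    intro z hz hz'
    rw [Finset.mem_union, Finset.mem_insert, mem_F0, mem_up] at hz
    rw [Finset.mem_erase, mem_G0] at hz'
    rcases hz with (hz | hz) | hz
    · exact hz'.1 hz
    · omega
    · omega
  have h1 := sumAB τ _ _ hd
  have h2 := card_split c j
  have h3 := Finset.card_insert_of_notMem hxF
  have h4 := Finset.card_erase_of_mem hxG
  have h5 : 0 < (G0 c j).card := Finset.card_pos.2 ⟨x, hxG⟩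
  have h7 := Finset.card_union_of_disjoint hd0
  have h8 := card_up_le (P := P) hx
  have h6 : Fintype.card P - (insert x (F0 c j) ∪ up c x).card - ((G0 c j).erase x).card =
      bb c j - (up c x).card := by
    omega
  rw [h6, h7, h3] at h1
  rw [← h1]
  unfold val1
  exact sum_congr_prop τ _ _ (fun S => up_iff_up hc j S x hx)

lemma val1_dn {c : P → ℕ} (hc : Gr c) (j : ℕ) (τ : ℚ) (x : P) (hx : c x + 1 = j) :
    val1 c j τ x =
      τ ^ ((F0 c j).card - 1) * (1 + τ) ^ (bb c j - (dn c x).card) := by
  have hxF : x ∈ F0 c j := by rw [mem_F0]; omega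
  have hxG : x ∉ G0 c j := by rw [mem_G0]; omega
  have hd0 : Disjoint (insert x (G0 c j)) (dn c x) := by
    rw [Finset.disjoint_left]
    intro z hz hz'
    rw [Finset.mem_insert, mem_G0] at hz
    rw [mem_dn] at hz'
    rcases hz with hz | hz
    · subst hz; exact lt_irrefl _ hz'.1
    · omega
  have hd : Disjoint ((F0 c j).erase x) (insert x (G0 c j) ∪ dn c x) := by
    rw [Finset.disjoint_left]
    intro z hz hz'
    rw [Finset.mem_union, Finset.mem_insert, mem_G0, mem_dn] at hz'
    rw [Finset.mem_erase, mem_F0] at hz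
    rcases hz' with (hz' | hz') | hz'
    · exact hz.1 hz'
    · omega
    · omega
  have h1 := sumAB τ _ _ hd
  have h2 := card_split c j
  have h3 := Finset.card_insert_of_notMem hxG
  have h4 := Finset.card_erase_of_mem hxF
  have h5 : 0 < (F0 c j).card := Finset.card_pos.2 ⟨x, hxF⟩
  have h7 := Finset.card_union_of_disjoint hd0
  have h8 := card_dn_le (P := P) hx
  have h6 : Fintype.card P - ((F0 c j).erase x).card - (insert x (G0 c j) ∪ dn c x).card =
      bb c j - (dn c x).card := by
    omega
  rw [h6, h4] at h1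
  rw [← h1]
  unfold val1
  exact sum_congr_prop τ _ _ (fun S => up_iff_dn hc j S x hx)

/-- The normalised weight of an element. -/
def W (c : P → ℕ) (j : ℕ) (τ : ℚ) (x : P) : ℚ :=
  if c x = j then 1 else
  if c x + 1 = j then (1 + τ⁻¹) * ((1 + τ)⁻¹) ^ (dn c x).card - τ⁻¹ else
  if c x = j + 1 then (1 + τ) * (τ * (1 + τ)⁻¹) ^ (up c x).card - τ else
  if c x + 1 < j ∧ ∀ y, ¬ y < x then 1 else 0

lemma val_eq_W {c : P → ℕ} (hc : Gr c) (j : ℕ) (τ : ℚ) (hτ : 0 < τ) (x : P) :
    val0 c j τ x + val1 c j τ x - val2 c j τ x =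
      τ ^ (F0 c j).card * (1 + τ) ^ (bb c j) * W c j τ x := by
  have h1τ : (1 + τ) ≠ 0 := by positivity
  have hτ0 : τ ≠ 0 := ne_of_gt hτ
  by_cases h1 : c x = j
  · have e1 : val1 c j τ x = 0 := by
      unfold val1
      apply Finset.sum_eq_zero
      intro S _
      rw [if_neg]
      rintro ⟨h, _⟩
      exact TT_false c j S x (by omega) (by omega) h
    have e2 : val2 c j τ x = 0 := by
      unfold val2
      apply Finset.sum_eq_zero
      intro S _
      rw [if_neg]
      exact TT_false c j S x (by omega) (by omega)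
    rw [val0_mid hc j τ x h1, e1, e2]
    unfold W
    rw [if_pos h1]
    ring
  · by_cases h2 : c x + 1 = j
    · have hxF : x ∈ F0 c j := by rw [mem_F0]; omega
      have hf : 0 < (F0 c j).card := Finset.card_pos.2 ⟨x, hxF⟩
      obtain ⟨f, hf'⟩ : ∃ f, (F0 c j).card = f + 1 := ⟨(F0 c j).card - 1, by omega⟩
      obtain ⟨r, hr⟩ : ∃ r, bb c j = r + (dn c x).card :=
        ⟨bb c j - (dn c x).card, by have := card_dn_le (P := P) h2; omega⟩
      have e2 : val2 c j τ x = _ := val2_dn c j τ x h2
      rw [val0_dn hc j τ x h2, val1_dn hc j τ x h2, e2, hf', hr]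
      unfold W
      rw [if_neg h1, if_pos h2]
      simp only [Nat.add_sub_cancel, pow_add, inv_pow]
      field_simp
    · by_cases h3 : c x = j + 1
      · obtain ⟨r, hr⟩ : ∃ r, bb c j = r + (up c x).card :=
          ⟨bb c j - (up c x).card, by have := card_up_le (P := P) h3; omega⟩
        have e2 : val2 c j τ x = _ := val2_up c j τ x h3
        rw [val0_up hc j τ x h3, val1_up hc j τ x h3, e2, hr]
        unfold W
        rw [if_neg h1, if_neg h2, if_pos h3]
        simp only [Nat.add_sub_cancel, pow_add, mul_pow, inv_pow]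
        field_simp
      · have e1 : val1 c j τ x = 0 := by
          unfold val1
          apply Finset.sum_eq_zero
          intro S _
          rw [if_neg]
          rintro ⟨h, _⟩
          exact TT_false c j S x (by omega) (by omega) h
        have e2 : val2 c j τ x = 0 := by
          unfold val2
          apply Finset.sum_eq_zero
          intro S _
          rw [if_neg]
          exact TT_false c j S x (by omega) (by omega)
        rw [e1, e2]
        unfold W
        rw [if_neg h1, if_neg h2, if_neg h3]
        by_cases h4 : c x + 1 < j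
        · by_cases h5 : ∀ y, ¬ y < x
          · rw [if_pos ⟨h4, h5⟩, val0_low_min j τ x h4 h5]
            ring
          · rw [if_neg (fun h => h5 h.2)]
            push Not at h5
            rw [val0_low hc j τ x h4 h5]
            ring
        · rw [if_neg (fun h => h4 h.1), val0_high hc j τ x (by omega)]
          ring

omit [PartialOrder P] in
lemma eps_one_ind (c : P → ℕ) (j : ℕ) (S : Finset P) :
    (if eps c j S = 1 then (1 : ℚ) else 0) = ∑ x, (if TT c j S x then (1 : ℚ) else 0) := by
  have h := sum_eq_one_ind (te c j S)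
  have h2 : ∑ x, te c j S x = eps c j S := rfl
  rw [h2] at h
  rw [h]
  apply Finset.sum_congr rfl
  intro x _
  by_cases hT : TT c j S x
  · rw [if_pos hT]; exact if_pos hT
  · rw [if_neg hT]; exact if_neg hT

/-- The weight identity. -/
lemma sum_W {ι : Type} [Fintype ι] (G : GData P ι) {c : P → ℕ} (hc : IsCr c) (j : ℕ)
    (τ : ℚ) (hτ : 0 < τ) :
    ∑ x, W c j τ x = (((Finset.univ : Finset P).filter (fun x => ∀ y, ¬ x < y)).card : ℚ) := by
  have hg : Gr c := exists_Gr G hc
  have h := level_first G hc j τ
  rw [sum_eps_zero] at h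
  have e0 : ∑ S : Finset P, (if eps c j S = 0 then τ ^ S.card *
      (((Finset.univ : Finset P).filter (fun x => Good S (Pi.single x 1 + base c S))).card : ℚ)
      else 0) = ∑ x, val0 c j τ x := by
    unfold val0
    rw [Finset.sum_comm]
    apply Finset.sum_congr rfl
    intro S _
    by_cases hS : eps c j S = 0
    · rw [if_pos hS, Finset.card_filter, Nat.cast_sum, Finset.mul_sum]
      apply Finset.sum_congr rfl
      intro x _
      have := good_single_iff hg S (upper_of_eps_zero hc j S hS) x
      by_cases hx : Extra S x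
      · rw [if_pos (this.2 hx), if_pos (show eps c j S = 0 ∧ Extra S x from ⟨hS, hx⟩)]
        simp
      · rw [if_neg (fun h => hx (this.1 h)),
          if_neg (show ¬ (eps c j S = 0 ∧ Extra S x) from fun h => hx h.2)]
        simp
    · rw [if_neg hS]
      symm
      apply Finset.sum_eq_zero
      intro x _
      rw [if_neg (fun h => hS h.1)]
  have e1 : ∑ S : Finset P, (if eps c j S = 1 then τ ^ S.card *
      (if (∀ x ∈ S, ∀ y, x ≤ y → y ∈ S) then (1 : ℚ) else 0) else 0) = ∑ x, val1 c j τ x := by
    unfold val1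
    rw [Finset.sum_comm]
    apply Finset.sum_congr rfl
    intro S _
    have h1 : (if eps c j S = 1 then (1 : ℚ) else 0) = ∑ x, (if TT c j S x then (1 : ℚ) else 0) :=
      eps_one_ind c j S
    by_cases hU : Up S
    · have e : (if (∀ x ∈ S, ∀ y, x ≤ y → y ∈ S) then (1 : ℚ) else 0) = 1 := if_pos hU
      rw [e]
      calc (if eps c j S = 1 then τ ^ S.card * 1 else 0) =
            τ ^ S.card * (if eps c j S = 1 then 1 else 0) := by split_ifs <;> ring
        _ = _ := by
          rw [h1, Finset.mul_sum]
          apply Finset.sum_congr rfl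
          intro x _
          by_cases hT : TT c j S x
          · rw [if_pos (⟨hT, hU⟩ : TT c j S x ∧ Up S)]
            rw [if_pos hT]
            ring
          · rw [if_neg (fun h : TT c j S x ∧ Up S => hT h.1)]
            rw [if_neg hT]
            ring
    · have e : (if (∀ x ∈ S, ∀ y, x ≤ y → y ∈ S) then (1 : ℚ) else 0) = 0 := if_neg hU
      rw [e]
      rw [Finset.sum_eq_zero (f := fun x => if TT c j S x ∧ Up S then τ ^ S.card else 0)]
      · split_ifs <;> ring
      · intro x _
        rw [if_neg (fun h => hU h.2)]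
  have e2 : ∑ S : Finset P, (if eps c j S = 1 then τ ^ S.card else 0) = ∑ x, val2 c j τ x := by
    unfold val2
    rw [Finset.sum_comm]
    apply Finset.sum_congr rfl
    intro S _
    have h1 : (if eps c j S = 1 then (1 : ℚ) else 0) = ∑ x, (if TT c j S x then (1 : ℚ) else 0) :=
      eps_one_ind c j S
    calc (if eps c j S = 1 then τ ^ S.card else 0) =
          τ ^ S.card * (if eps c j S = 1 then 1 else 0) := by split_ifs <;> ring
      _ = _ := by
        rw [h1, Finset.mul_sum]
        apply Finset.sum_congr rfl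
        intro x _
        by_cases hT : TT c j S x
        · rw [if_pos hT]
          rw [if_pos hT]
          ring
        · rw [if_neg hT]
          rw [if_neg hT]
          ring
  have e3 : (((Finset.univ : Finset P).filter
      (fun x => Monotone (Pi.single x 1 : P → ℕ))).card : ℚ) =
      (((Finset.univ : Finset P).filter (fun x => ∀ y, ¬ x < y)).card : ℚ) := by
    congr 2
    ext x
    simp only [Finset.mem_filter, Finset.mem_univ, true_and]
    exact mono_single_iff x
  rw [e0, e1, e2, e3] at h
  have h5 : ∑ x, (val0 c j τ x + val1 c j τ x - val2 c j τ x) =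
      (((Finset.univ : Finset P).filter (fun x => ∀ y, ¬ x < y)).card : ℚ) *
        (τ ^ (F0 c j).card * (1 + τ) ^ (bb c j)) := by
    rw [Finset.sum_sub_distrib, Finset.sum_add_distrib, h]
    ring
  rw [Finset.sum_congr rfl (fun x _ => val_eq_W hg j τ hτ x), ← Finset.mul_sum] at h5
  have h6 : τ ^ (F0 c j).card * (1 + τ) ^ (bb c j) ≠ 0 := by positivity
  apply mul_left_cancel₀ h6
  rw [h5]
  ring

end

end Pool.Agent.W_MP_448cb3_co
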