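import Mathlib
import Pool.Agent.W_MP_448cb3_co.Weights

set_option autoImplicit false

/-!
In a Gaussian poset every element has at most two upper and at most two lower covers.
-/

namespace Pool.Agent.W_MP_448cb3_co

open Finset
open scoped Classical

noncomputable section

lemma ff_step (n : ℕ) : (0 : ℚ) ≤ (2 ^ n - 1) * (2 ^ n - 2) := by
  rcases Nat.eq_zero_or_pos n with h | h
  · subst h; norm_num
  · have h1 : (2 : ℚ) ≤ 2 ^ n := by
      calc (2 : ℚ) = 2 ^ 1 := by norm_num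
        _ ≤ 2 ^ n := pow_le_pow_right₀ (by norm_num) h
    apply mul_nonneg <;> linarith

lemma ff_nonneg (n : ℕ) : (0 : ℚ) ≤ 4 ^ n + 3 * 2 ^ n - 3 * 3 ^ n - 1 := by
  induction n with
  | zero => norm_num
  | succ n ih =>
    have h := ff_step n
    have e : (4 : ℚ) ^ n = 2 ^ n * 2 ^ n := by
      rw [← mul_pow]; norm_num
    rw [pow_succ, pow_succ, pow_succ]
    nlinarith

lemma ff_pos (n : ℕ) : (0 : ℚ) < 4 ^ (n + 3) + 3 * 2 ^ (n + 3) - 3 * 3 ^ (n + 3) - 1 := by
  induction n with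
  | zero => norm_num
  | succ n ih =>
    have h := ff_step (n + 3)
    have e : (4 : ℚ) ^ (n + 3) = 2 ^ (n + 3) * 2 ^ (n + 3) := by
      rw [← mul_pow]; norm_num
    have e1 : n + 1 + 3 = n + 3 + 1 := by ring
    have f4 : (4 : ℚ) ^ (n + 3 + 1) = 4 ^ (n + 3) * 4 := pow_succ _ _
    have f2 : (2 : ℚ) ^ (n + 3 + 1) = 2 ^ (n + 3) * 2 := pow_succ _ _
    have f3 : (3 : ℚ) ^ (n + 3 + 1) = 3 ^ (n + 3) * 3 := pow_succ _ _
    rw [e1, f4, f2, f3]
    nlinarith

lemma delta_eq (n : ℕ) : 4 * (3 / 4 : ℚ) ^ n + 4 / 3 * (1 / 4) ^ n - 4 * (1 / 2) ^ n - 4 / 3 =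
    -(4 / 3) * (1 / 4) ^ n * (4 ^ n + 3 * 2 ^ n - 3 * 3 ^ n - 1) := by
  have e1 : (3 / 4 : ℚ) ^ n = (1 / 4) ^ n * 3 ^ n := by rw [← mul_pow]; norm_num
  have e2 : (1 / 2 : ℚ) ^ n = (1 / 4) ^ n * 2 ^ n := by rw [← mul_pow]; norm_num
  have e3 : (1 : ℚ) = (1 / 4) ^ n * 4 ^ n := by rw [← mul_pow]; norm_num
  rw [e1, e2]
  linear_combination (-4 / 3) * e3

lemma delta_nonpos (n : ℕ) :
    4 * (3 / 4 : ℚ) ^ n + 4 / 3 * (1 / 4) ^ n - 4 * (1 / 2) ^ n - 4 / 3 ≤ 0 := by
  rw [delta_eq]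
  have h1 := ff_nonneg n
  have h2 : (0 : ℚ) < (1 / 4) ^ n := by positivity
  nlinarith [mul_nonneg h2.le h1]

lemma delta_neg (n : ℕ) (hn : 3 ≤ n) :
    4 * (3 / 4 : ℚ) ^ n + 4 / 3 * (1 / 4) ^ n - 4 * (1 / 2) ^ n - 4 / 3 < 0 := by
  rw [delta_eq]
  obtain ⟨k, rfl⟩ := Nat.exists_eq_add_of_le' hn
  have h1 := ff_pos k
  have h2 : (0 : ℚ) < (1 / 4) ^ (k + 3) := by positivity
  nlinarith [mul_pos h2 h1]

variable {P : Type} [Fintype P] [PartialOrder P]

lemma W_dn (c : P → ℕ) (j : ℕ) (τ : ℚ) (x : P) (hx : c x + 1 = j) :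
    W c j τ x = (1 + τ⁻¹) * ((1 + τ)⁻¹) ^ (dn c x).card - τ⁻¹ := by
  unfold W
  rw [if_neg (by omega), if_pos hx]

lemma W_up (c : P → ℕ) (j : ℕ) (τ : ℚ) (x : P) (hx : c x = j + 1) :
    W c j τ x = (1 + τ) * (τ * (1 + τ)⁻¹) ^ (up c x).card - τ := by
  unfold W
  rw [if_neg (by omega), if_neg (by omega), if_pos hx]

lemma W_other (c : P → ℕ) (j : ℕ) (τ : ℚ) (x : P) (hx : c x ≠ j + 1) (hx' : c x + 1 ≠ j) :
    W c j τ x = if (c x = j ∨ (c x < j ∧ ∀ y, ¬ y < x)) then 1 else 0 := by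
  unfold W
  by_cases h1 : c x = j
  · rw [if_pos h1, if_pos (Or.inl h1)]
  · rw [if_neg h1, if_neg hx', if_neg hx]
    by_cases h2 : c x + 1 < j ∧ ∀ y, ¬ y < x
    · rw [if_pos h2, if_pos (Or.inr ⟨by omega, h2.2⟩)]
    · rw [if_neg h2, if_neg]
      rintro (h | ⟨h, h'⟩)
      · exact h1 h
      · exact h2 ⟨by omega, h'⟩

lemma D_dn (c : P → ℕ) (j : ℕ) (x : P) (hx : c x + 1 = j) :
    W c j (1 / 3) x + W c j 3 x - 2 * W c j 1 x =
      4 * (3 / 4 : ℚ) ^ (dn c x).card + 4 / 3 * (1 / 4) ^ (dn c x).card -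
        4 * (1 / 2) ^ (dn c x).card - 4 / 3 := by
  rw [W_dn c j _ x hx, W_dn c j _ x hx, W_dn c j _ x hx]
  norm_num
  ring

lemma D_up (c : P → ℕ) (j : ℕ) (x : P) (hx : c x = j + 1) :
    W c j (1 / 3) x + W c j 3 x - 2 * W c j 1 x =
      4 * (3 / 4 : ℚ) ^ (up c x).card + 4 / 3 * (1 / 4) ^ (up c x).card -
        4 * (1 / 2) ^ (up c x).card - 4 / 3 := by
  rw [W_up c j _ x hx, W_up c j _ x hx, W_up c j _ x hx]
  norm_num
  ring

lemma D_other (c : P → ℕ) (j : ℕ) (x : P) (hx : c x ≠ j + 1) (hx' : c x + 1 ≠ j) :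
    W c j (1 / 3) x + W c j 3 x - 2 * W c j 1 x = 0 := by
  rw [W_other c j _ x hx hx', W_other c j _ x hx hx', W_other c j _ x hx hx']
  split_ifs <;> norm_num

lemma D_nonpos (c : P → ℕ) (j : ℕ) (x : P) :
    W c j (1 / 3) x + W c j 3 x - 2 * W c j 1 x ≤ 0 := by
  by_cases h1 : c x + 1 = j
  · rw [D_dn c j x h1]; exact delta_nonpos _
  · by_cases h2 : c x = j + 1
    · rw [D_up c j x h2]; exact delta_nonpos _
    · rw [D_other c j x h2 h1]

lemma D_zero {ι : Type} [Fintype ι] (G : GData P ι) {c : P → ℕ} (hc : IsCr c) (j : ℕ) (x : P) :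
    W c j (1 / 3) x + W c j 3 x - 2 * W c j 1 x = 0 := by
  have h1 := sum_W G hc j (1 / 3) (by norm_num)
  have h2 := sum_W G hc j 3 (by norm_num)
  have h3 := sum_W G hc j 1 (by norm_num)
  have h4 : ∑ x, (W c j (1 / 3) x + W c j 3 x - 2 * W c j 1 x) = 0 := by
    rw [Finset.sum_sub_distrib, Finset.sum_add_distrib, ← Finset.mul_sum, h1, h2, h3]
    ring
  exact (Finset.sum_eq_zero_iff_of_nonpos (fun x _ => D_nonpos c j x)).1 h4 x (Finset.mem_univ _)

lemma card_dn_le_two {ι : Type} [Fintype ι] (G : GData P ι) {c : P → ℕ} (hc : IsCr c) (x : P) :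
    (dn c x).card ≤ 2 := by
  by_contra h
  push Not at h
  have h1 := D_zero G hc (c x + 1) x
  rw [D_dn c (c x + 1) x rfl] at h1
  have h2 := delta_neg _ h
  linarith

lemma card_up_le_two {ι : Type} [Fintype ι] (G : GData P ι) {c : P → ℕ} (hc : IsCr c) (x : P) :
    (up c x).card ≤ 2 := by
  by_contra h
  push Not at h
  have hx : 0 < c x := by
    obtain ⟨z, hz⟩ := Finset.card_pos.1 (by omega : 0 < (up c x).card)
    rw [mem_up] at hz
    omega
  obtain ⟨j, hj⟩ : ∃ j, c x = j + 1 := ⟨c x - 1, by omega⟩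
  have h1 := D_zero G hc j x
  rw [D_up c j x hj] at h1
  have h2 := delta_neg _ h
  linarith

lemma card_up_pos {c : P → ℕ} (hc : Gr c) (x : P) (hx : 0 < c x) : 0 < (up c x).card := by
  obtain ⟨y, hy⟩ := hc.step x hx
  obtain ⟨z, hz1, _, hz2⟩ := hc.hi x y hy
  exact Finset.card_pos.2 ⟨z, mem_up.2 ⟨hz1, hz2⟩⟩

lemma card_dn_pos_iff {c : P → ℕ} (hc : Gr c) (x : P) : (dn c x).card = 0 ↔ ∀ y, ¬ y < x := by
  constructor
  · intro h y hy
    obtain ⟨z, _, hz1, hz2⟩ := hc.lo x y hy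
    have : z ∈ dn c x := mem_dn.2 ⟨hz1, hz2⟩
    rw [Finset.card_eq_zero] at h
    rw [h] at this
    simp at this
  · intro h
    rw [Finset.card_eq_zero, Finset.eq_empty_iff_forall_notMem]
    intro z hz
    exact h z (mem_dn.1 hz).1

/-- Number of elements of corank `j - 1` with two lower covers. -/
def nn (c : P → ℕ) (j : ℕ) : ℕ :=
  ((Finset.univ : Finset P).filter (fun x => c x + 1 = j ∧ (dn c x).card = 2)).card

/-- Number of elements of corank `j + 1` with two upper covers. -/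
def mm (c : P → ℕ) (j : ℕ) : ℕ :=
  ((Finset.univ : Finset P).filter (fun x => c x = j + 1 ∧ (up c x).card = 2)).card

lemma diff_W {c : P → ℕ} (hc : Gr c) (hd : ∀ x, (dn c x).card ≤ 2) (hu : ∀ x, (up c x).card ≤ 2)
    (j : ℕ) (x : P) :
    W c j 3 x - W c j (1 / 3) x =
      (1 / 2) * (if c x + 1 = j ∧ (dn c x).card = 2 then 1 else 0) -
      (1 / 2) * (if c x = j + 1 ∧ (up c x).card = 2 then 1 else 0) := by
  by_cases h1 : c x + 1 = j
  · have h2 : ¬ (c x = j + 1 ∧ (up c x).card = 2) := fun h => by omega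
    rw [W_dn c j _ x h1, W_dn c j _ x h1, if_neg h2]
    have h3 := hd x
    by_cases h4 : (dn c x).card = 2
    · rw [if_pos ⟨h1, h4⟩, h4]; norm_num
    · rw [if_neg (fun h => h4 h.2)]
      have h5 : (dn c x).card = 0 ∨ (dn c x).card = 1 := by omega
      rcases h5 with h5 | h5 <;> rw [h5] <;> norm_num
  · by_cases h2 : c x = j + 1
    · have h3 : ¬ (c x + 1 = j ∧ (dn c x).card = 2) := fun h => h1 h.1
      rw [W_up c j _ x h2, W_up c j _ x h2, if_neg h3]
      have h4 := hu x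
      have h5 := card_up_pos hc x (by omega)
      by_cases h6 : (up c x).card = 2
      · rw [if_pos ⟨h2, h6⟩, h6]; norm_num
      · rw [if_neg (fun h => h6 h.2)]
        have h7 : (up c x).card = 1 := by omega
        rw [h7]; norm_num
    · rw [W_other c j _ x h2 h1, W_other c j _ x h2 h1,
        if_neg (fun h : c x + 1 = j ∧ (dn c x).card = 2 => h1 h.1),
        if_neg (fun h : c x = j + 1 ∧ (up c x).card = 2 => h2 h.1)]
      ring

lemma one_W {c : P → ℕ} (hc : Gr c) (hd : ∀ x, (dn c x).card ≤ 2) (hu : ∀ x, (up c x).card ≤ 2)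
    (j : ℕ) (x : P) :
    W c j 1 x = (if c x = j then 1 else 0) + (if c x < j ∧ ∀ y, ¬ y < x then 1 else 0) -
      (1 / 2) * (if c x + 1 = j ∧ (dn c x).card = 2 then 1 else 0) -
      (1 / 2) * (if c x = j + 1 ∧ (up c x).card = 2 then 1 else 0) := by
  by_cases h1 : c x + 1 = j
  · have h2 : ¬ (c x = j + 1 ∧ (up c x).card = 2) := fun h => by omega
    rw [W_dn c j _ x h1, if_neg h2, if_neg (by omega : ¬ c x = j)]
    have h3 := hd x
    have h0 := card_dn_pos_iff hc x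
    by_cases h4 : (dn c x).card = 2
    · have h5 : ¬ (c x < j ∧ ∀ y, ¬ y < x) := fun h => by have := h0.2 h.2; omega
      rw [if_pos (show c x + 1 = j ∧ (dn c x).card = 2 from ⟨h1, h4⟩), h4, if_neg h5]; norm_num
    · rw [if_neg (fun h : c x + 1 = j ∧ (dn c x).card = 2 => h4 h.2)]
      have h5 : (dn c x).card = 0 ∨ (dn c x).card = 1 := by omega
      rcases h5 with h5 | h5
      · rw [if_pos (show c x < j ∧ ∀ y, ¬ y < x from ⟨by omega, h0.1 h5⟩), h5]; norm_num
      · have h6 : ¬ (c x < j ∧ ∀ y, ¬ y < x) := fun h => by have := h0.2 h.2; omega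
        rw [if_neg h6, h5]; norm_num
  · by_cases h2 : c x = j + 1
    · have h3 : ¬ (c x + 1 = j ∧ (dn c x).card = 2) := fun h => h1 h.1
      rw [W_up c j _ x h2, if_neg h3, if_neg (by omega : ¬ c x = j),
        if_neg (fun h => by omega : ¬ (c x < j ∧ ∀ y, ¬ y < x))]
      have h4 := hu x
      have h5 := card_up_pos hc x (by omega)
      by_cases h6 : (up c x).card = 2
      · rw [if_pos ⟨h2, h6⟩, h6]; norm_num
      · rw [if_neg (fun h => h6 h.2)]
        have h7 : (up c x).card = 1 := by omega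
        rw [h7]; norm_num
    · rw [W_other c j _ x h2 h1, if_neg (fun h : c x + 1 = j ∧ (dn c x).card = 2 => h1 h.1),
        if_neg (fun h : c x = j + 1 ∧ (up c x).card = 2 => h2 h.1)]
      by_cases h3 : c x = j
      · rw [if_pos (Or.inl h3), if_pos h3, if_neg (fun h => by omega : ¬ (c x < j ∧ ∀ y, ¬ y < x))]
        ring
      · rw [if_neg h3]
        by_cases h4 : c x < j ∧ ∀ y, ¬ y < x
        · rw [if_pos (Or.inr h4), if_pos h4]; ring
        · rw [if_neg h4, if_neg]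
          · ring
          · rintro (h | h)
            · exact h3 h
            · exact h4 h

/-- The counting identities. -/
lemma counts {ι : Type} [Fintype ι] (G : GData P ι) {c : P → ℕ} (hc : IsCr c) (j : ℕ) :
    nn c j = mm c j ∧
    nn c j + ((Finset.univ : Finset P).filter (fun x => ∀ y, ¬ x < y)).card =
      bb c j + ((Finset.univ : Finset P).filter (fun x => c x < j ∧ ∀ y, ¬ y < x)).card := by
  have hg : Gr c := exists_Gr G hc
  have hd := card_dn_le_two G hc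
  have hu := card_up_le_two G hc
  have h1 := sum_W G hc j (1 / 3) (by norm_num)
  have h2 := sum_W G hc j 3 (by norm_num)
  have h3 := sum_W G hc j 1 (by norm_num)
  have h4 : ∑ x, (W c j 3 x - W c j (1 / 3) x) = 0 := by
    rw [Finset.sum_sub_distrib, h1, h2]
    ring
  rw [Finset.sum_congr rfl (fun x _ => diff_W hg hd hu j x), Finset.sum_sub_distrib,
    ← Finset.mul_sum, ← Finset.mul_sum, Finset.sum_boole, Finset.sum_boole] at h4
  rw [Finset.sum_congr rfl (fun x _ => one_W hg hd hu j x), Finset.sum_sub_distrib,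
    Finset.sum_sub_distrib, Finset.sum_add_distrib, ← Finset.mul_sum, ← Finset.mul_sum,
    Finset.sum_boole, Finset.sum_boole, Finset.sum_boole, Finset.sum_boole] at h3
  have e1 : ((((Finset.univ : Finset P).filter (fun x => c x + 1 = j ∧ (dn c x).card = 2)).card : ℕ) : ℚ)
    = (nn c j : ℚ) := by unfold nn; congr!
  have e2 : ((((Finset.univ : Finset P).filter (fun x => c x = j + 1 ∧ (up c x).card = 2)).card : ℕ) : ℚ)
    = (mm c j : ℚ) := by unfold mm; congr!
  have e3 : ((((Finset.univ : Finset P).filter (fun x => c x = j)).card : ℕ) : ℚ)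
    = (bb c j : ℚ) := by unfold bb; congr!
  have h5 : (nn c j : ℚ) = mm c j := by
    rw [← e1, ← e2]
    linarith
  constructor
  · exact_mod_cast h5
  · have h6 : (nn c j : ℚ) + ((Finset.univ : Finset P).filter (fun x => ∀ y, ¬ x < y)).card =
      bb c j + ((Finset.univ : Finset P).filter (fun x => c x < j ∧ ∀ y, ¬ y < x)).card := by
      rw [← h3, e3]
      have e1' := e1
      have e2' := e2
      have : (mm c j : ℚ) = nn c j := h5.symm
      linarith [e1, e2, h5]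
    exact_mod_cast h6

end

end Pool.Agent.W_MP_448cb3_co
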