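import Mathlib
import Pool.Agent.W_MP_448cb3_co.Two

set_option autoImplicit false

/-!
A finite graded lattice with few join irreducible and few meet irreducible elements is
distributive.
-/

namespace Pool.Agent.W_MP_448cb3_co

open Finset
open scoped Classical

noncomputable section

/-- The distributive law for a family of subsets compatible with the lattice operations. -/
lemma extremal {P : Type} [Lattice P] [Fintype P] {c : P → ℕ} (hg : Gr c) (b t : P)
    (hb : ∀ x, b ≤ x) (ht : ∀ x, x ≤ t)
    (hJ : ((Finset.univ : Finset P).filter (fun x => (dn c x).card = 1)).card ≤ c b)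
    (hM : ((Finset.univ : Finset P).filter (fun x => (up c x).card = 1)).card ≤ c b)
    (x y z : P) : x ⊓ (y ⊔ z) ≤ (x ⊓ y) ⊔ (x ⊓ z) := by
  set J : Finset P := (Finset.univ : Finset P).filter (fun x => (dn c x).card = 1) with hJdef
  set M : Finset P := (Finset.univ : Finset P).filter (fun x => (up c x).card = 1) with hMdef
  have memJ : ∀ u, u ∈ J ↔ (dn c u).card = 1 := fun u => by simp [hJdef]
  have memM : ∀ u, u ∈ M ↔ (up c u).card = 1 := fun u => by simp [hMdef]
  -- separation by join irreducibles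
  have sepJ : ∀ u v : P, ¬ u ≤ v → ∃ j ∈ J, j ≤ u ∧ ¬ j ≤ v := by
    intro u v huv
    have hne : ((Finset.univ : Finset P).filter (fun w => w ≤ u ∧ ¬ w ≤ v)).Nonempty :=
      ⟨u, by simp [huv]⟩
    obtain ⟨j, hj, hjmin⟩ := Finset.exists_minimal hne
    simp only [Finset.mem_filter, Finset.mem_univ, true_and] at hj hjmin
    refine ⟨j, ?_, hj.1, hj.2⟩
    have hlow : ∀ w, w < j → w ≤ v := by
      intro w hw
      by_contra hwv
      have := hjmin (⟨hw.le.trans hj.1, hwv⟩ : w ≤ u ∧ ¬ w ≤ v) hw.le
      exact absurd hw (not_lt_of_ge this)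
    rw [memJ]
    have hbj : b < j := by
      refine lt_of_le_of_ne (hb j) ?_
      rintro rfl
      exact hj.2 (hb v)
    obtain ⟨w, _, hw1, hw2⟩ := hg.lo j b hbj
    have hpos : 0 < (dn c j).card := Finset.card_pos.2 ⟨w, mem_dn.2 ⟨hw1, hw2⟩⟩
    by_contra hne1
    have h2 : 1 < (dn c j).card := by omega
    obtain ⟨y1, hy1, y2, hy2, hy12⟩ := Finset.one_lt_card.1 h2
    rw [mem_dn] at hy1 hy2
    have hle : y1 ⊔ y2 ≤ j := sup_le hy1.1.le hy2.1.le
    have hlt : y1 < y1 ⊔ y2 := by
      refine lt_of_le_of_ne le_sup_left ?_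
      intro h
      have h3 : y2 ≤ y1 := by rw [h]; exact le_sup_right
      have h4 := hg.anti y2 y1 (lt_of_le_of_ne h3 (Ne.symm hy12))
      omega
    have h5 := hg.anti _ _ hlt
    have h6 : y1 ⊔ y2 = j := by
      by_contra hne2
      have h7 := hg.anti _ _ (lt_of_le_of_ne hle hne2)
      omega
    exact hj.2 (h6 ▸ sup_le (hlow y1 hy1.1) (hlow y2 hy2.1))
  -- separation by meet irreducibles
  have sepM : ∀ u v : P, ¬ v ≤ u → ∃ m ∈ M, u ≤ m ∧ ¬ v ≤ m := by
    intro u v huv
    have hne : ((Finset.univ : Finset P).filter (fun w => u ≤ w ∧ ¬ v ≤ w)).Nonempty :=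
      ⟨u, by simp [huv]⟩
    obtain ⟨j, hj, hjmax⟩ := Finset.exists_maximal hne
    simp only [Finset.mem_filter, Finset.mem_univ, true_and] at hj hjmax
    refine ⟨j, ?_, hj.1, hj.2⟩
    have hhigh : ∀ w, j < w → v ≤ w := by
      intro w hw
      by_contra hwv
      have := hjmax (⟨hj.1.trans hw.le, hwv⟩ : u ≤ w ∧ ¬ v ≤ w) hw.le
      exact absurd hw (not_lt_of_ge this)
    rw [memM]
    have hjt : j < t := by
      refine lt_of_le_of_ne (ht j) ?_
      rintro rfl
      exact hj.2 (ht v)
    obtain ⟨w, hw1, _, hw2⟩ := hg.hi j t hjt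
    have hpos : 0 < (up c j).card := Finset.card_pos.2 ⟨w, mem_up.2 ⟨hw1, hw2⟩⟩
    by_contra hne1
    have h2 : 1 < (up c j).card := by omega
    obtain ⟨y1, hy1, y2, hy2, hy12⟩ := Finset.one_lt_card.1 h2
    rw [mem_up] at hy1 hy2
    have hle : j ≤ y1 ⊓ y2 := le_inf hy1.1.le hy2.1.le
    have hlt : y1 ⊓ y2 < y1 := by
      refine lt_of_le_of_ne inf_le_left ?_
      intro h
      have h3 : y1 ≤ y2 := by rw [← h]; exact inf_le_right
      have h4 := hg.anti y1 y2 (lt_of_le_of_ne h3 hy12)
      omega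
    have h5 := hg.anti _ _ hlt
    have h6 : j = y1 ⊓ y2 := by
      by_contra hne2
      have h7 := hg.anti _ _ (lt_of_le_of_ne hle hne2)
      omega
    exact hj.2 (h6 ▸ le_inf (hhigh y1 hy1.1) (hhigh y2 hy2.1))
  set Jx : P → Finset P := fun u => J.filter (fun j => j ≤ u) with hJx
  set Mx : P → Finset P := fun u => M.filter (fun m => u ≤ m) with hMx
  have memJx : ∀ u j, j ∈ Jx u ↔ j ∈ J ∧ j ≤ u := fun u j => by simp [hJx]
  have memMx : ∀ u j, j ∈ Mx u ↔ j ∈ M ∧ u ≤ j := fun u j => by simp [hMx]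
  have Jlt : ∀ u v, u < v → (Jx u).card < (Jx v).card := by
    intro u v huv
    apply Finset.card_lt_card
    refine ⟨fun j hj => ?_, fun h => ?_⟩
    · rw [memJx] at hj ⊢
      exact ⟨hj.1, hj.2.trans huv.le⟩
    · obtain ⟨j, hjJ, hj1, hj2⟩ := sepJ v u (not_le_of_gt huv)
      have := h ((memJx v j).2 ⟨hjJ, hj1⟩)
      exact hj2 ((memJx u j).1 this).2
  have Jlt' : ∀ u v, u < v → (J \ Jx v).card < (J \ Jx u).card := by
    intro u v huv
    apply Finset.card_lt_card
    refine ⟨fun j hj => ?_, fun h => ?_⟩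
    · rw [Finset.mem_sdiff, memJx] at hj ⊢
      exact ⟨hj.1, fun h => hj.2 ⟨h.1, h.2.trans huv.le⟩⟩
    · obtain ⟨j, hjJ, hj1, hj2⟩ := sepJ v u (not_le_of_gt huv)
      have := h (Finset.mem_sdiff.2 ⟨hjJ, fun h => hj2 ((memJx u j).1 h).2⟩)
      exact (Finset.mem_sdiff.1 this).2 ((memJx v j).2 ⟨hjJ, hj1⟩)
  have Mlt : ∀ u v, u < v → (Mx v).card < (Mx u).card := by
    intro u v huv
    apply Finset.card_lt_card
    refine ⟨fun j hj => ?_, fun h => ?_⟩
    · rw [memMx] at hj ⊢
      exact ⟨hj.1, huv.le.trans hj.2⟩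
    · obtain ⟨j, hjJ, hj1, hj2⟩ := sepM u v (not_le_of_gt huv)
      have := h ((memMx u j).2 ⟨hjJ, hj1⟩)
      exact hj2 ((memMx v j).1 this).2
  have Mlt' : ∀ u v, u < v → (M \ Mx u).card < (M \ Mx v).card := by
    intro u v huv
    apply Finset.card_lt_card
    refine ⟨fun j hj => ?_, fun h => ?_⟩
    · rw [Finset.mem_sdiff, memMx] at hj ⊢
      exact ⟨hj.1, fun h => hj.2 ⟨h.1, huv.le.trans h.2⟩⟩
    · obtain ⟨j, hjJ, hj1, hj2⟩ := sepM u v (not_le_of_gt huv)
      have := h (Finset.mem_sdiff.2 ⟨hjJ, fun h => hj2 ((memMx v j).1 h).2⟩)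
      exact (Finset.mem_sdiff.1 this).2 ((memMx u j).2 ⟨hjJ, hj1⟩)
  -- going down to the bottom
  have cle : ∀ u, c u ≤ c b := by
    intro u
    rcases lt_or_eq_of_le (hb u) with h | h
    · exact (hg.anti b u h).le
    · rw [h]
  have down : ∀ n u, c b - c u = n → n ≤ (Jx u).card ∧ n ≤ (M \ Mx u).card := by
    intro n
    induction n with
    | zero => intro u _; exact ⟨Nat.zero_le _, Nat.zero_le _⟩
    | succ n ih =>
      intro u hu
      have hbu : b < u := by
        refine lt_of_le_of_ne (hb u) ?_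
        rintro rfl
        omega
      obtain ⟨w, _, hw1, hw2⟩ := hg.lo u b hbu
      have h1 := ih w (by omega)
      have h2 := Jlt w u hw1
      have h3 := Mlt' w u hw1
      omega
  have upp : ∀ n u, c u = n → n ≤ (J \ Jx u).card ∧ n ≤ (Mx u).card := by
    intro n
    induction n with
    | zero => intro u _; exact ⟨Nat.zero_le _, Nat.zero_le _⟩
    | succ n ih =>
      intro u hu
      obtain ⟨y, hy⟩ := hg.step u (by omega)
      obtain ⟨w, hw1, _, hw2⟩ := hg.hi u y hy
      have h1 := ih w (by omega)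
      have h2 := Jlt' u w hw1
      have h3 := Mlt u w hw1
      omega
  have JxJ : ∀ u, Jx u ⊆ J := fun u j hj => ((memJx u j).1 hj).1
  have MxM : ∀ u, Mx u ⊆ M := fun u j hj => ((memMx u j).1 hj).1
  have cardJ : ∀ u, (Jx u).card + c u = c b := by
    intro u
    have h1 := (down _ u rfl).1
    have h2 := (upp _ u rfl).1
    have h3 := Finset.card_sdiff_add_card_eq_card (JxJ u)
    have h4 := cle u
    omega
  have cardM : ∀ u, (Mx u).card = c u := by
    intro u
    have h1 := (down _ u rfl).2
    have h2 := (upp _ u rfl).2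
    have h3 := Finset.card_sdiff_add_card_eq_card (MxM u)
    have h4 := cle u
    omega
  have Jinf : ∀ u v, Jx (u ⊓ v) = Jx u ∩ Jx v := by
    intro u v
    ext j
    rw [Finset.mem_inter, memJx, memJx, memJx, le_inf_iff]
    tauto
  have Msup : ∀ u v, Mx (u ⊔ v) = Mx u ∩ Mx v := by
    intro u v
    ext j
    rw [Finset.mem_inter, memMx, memMx, memMx, sup_le_iff]
    tauto
  have Jsup : ∀ u v, Jx (u ⊔ v) = Jx u ∪ Jx v := by
    intro u v
    have hsub : Jx u ∪ Jx v ⊆ Jx (u ⊔ v) := by
      intro j hj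
      rw [Finset.mem_union, memJx, memJx] at hj
      rw [memJx]
      rcases hj with hj | hj
      · exact ⟨hj.1, hj.2.trans le_sup_left⟩
      · exact ⟨hj.1, hj.2.trans le_sup_right⟩
    have hsubM : Mx u ∪ Mx v ⊆ Mx (u ⊓ v) := by
      intro j hj
      rw [Finset.mem_union, memMx, memMx] at hj
      rw [memMx]
      rcases hj with hj | hj
      · exact ⟨hj.1, inf_le_left.trans hj.2⟩
      · exact ⟨hj.1, inf_le_right.trans hj.2⟩
    symm
    apply Finset.eq_of_subset_of_card_le hsub
    have h1 := Finset.card_union_add_card_inter (Jx u) (Jx v)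
    have h2 := Finset.card_union_add_card_inter (Mx u) (Mx v)
    rw [← Jinf] at h1
    rw [← Msup] at h2
    have h3 := Finset.card_le_card hsubM
    have h4 := cardJ u
    have h5 := cardJ v
    have h6 := cardJ (u ⊓ v)
    have h7 := cardJ (u ⊔ v)
    rw [cardM, cardM, cardM] at h2
    rw [cardM] at h3
    omega
  by_contra hcon
  obtain ⟨j, hjJ, hj1, hj2⟩ := sepJ _ _ hcon
  have h1 : j ∈ Jx (x ⊓ (y ⊔ z)) := (memJx _ _).2 ⟨hjJ, hj1⟩
  rw [Jinf, Jsup] at h1
  have h2 : j ∈ Jx ((x ⊓ y) ⊔ (x ⊓ z)) := by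
    rw [Jsup, Jinf, Jinf]
    rw [Finset.mem_inter, Finset.mem_union] at h1
    rw [Finset.mem_union, Finset.mem_inter, Finset.mem_inter]
    tauto
  exact hj2 ((memJx _ _).1 h2).2

variable {P : Type} [Fintype P] [PartialOrder P]

omit [PartialOrder P] in
lemma sum_bb (c : P → ℕ) (l : ℕ) (hl : ∀ x, c x ≤ l) :
    ∑ j ∈ Finset.range (l + 1), bb c j = Fintype.card P := by
  rw [← Finset.card_univ, Finset.card_eq_sum_card_fiberwise (f := c) (t := Finset.range (l + 1))]
  · rfl
  · intro x _
    simp only [Finset.coe_range, Set.mem_Iio]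
    have := hl x
    omega

lemma sum_nn (c : P → ℕ) (l : ℕ) :
    ∑ j ∈ Finset.range (l + 1), nn c j =
      ((Finset.univ : Finset P).filter (fun x => c x < l ∧ (dn c x).card = 2)).card := by
  rw [Finset.card_eq_sum_card_fiberwise (f := fun x => c x + 1) (t := Finset.range (l + 1))]
  · apply Finset.sum_congr rfl
    intro j hj
    unfold nn
    congr 1
    ext x
    simp only [Finset.mem_filter, Finset.mem_univ, true_and]
    rw [Finset.mem_range] at hj
    constructor
    · rintro ⟨h1, h2⟩
      exact ⟨⟨by omega, h2⟩, h1⟩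
    · rintro ⟨⟨_, h2⟩, h1⟩
      exact ⟨h1, h2⟩
  · intro x hx
    simp only [Finset.coe_filter, Finset.mem_univ, true_and, Set.mem_ofPred_eq] at hx
    simp only [Finset.coe_range, Set.mem_Iio]
    omega

lemma sum_mm (c : P → ℕ) (l : ℕ) (hl : ∀ x, c x ≤ l) :
    ∑ j ∈ Finset.range (l + 1), mm c j =
      ((Finset.univ : Finset P).filter (fun x => 0 < c x ∧ (up c x).card = 2)).card := by
  rw [Finset.card_eq_sum_card_fiberwise (f := fun x => c x - 1) (t := Finset.range (l + 1))]
  · apply Finset.sum_congr rfl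
    intro j hj
    unfold mm
    congr 1
    ext x
    simp only [Finset.mem_filter, Finset.mem_univ, true_and]
    constructor
    · rintro ⟨h1, h2⟩
      exact ⟨⟨by omega, h2⟩, by omega⟩
    · rintro ⟨⟨h3, h2⟩, h1⟩
      exact ⟨by omega, h2⟩
  · intro x hx
    simp only [Finset.coe_range, Set.mem_Iio]
    have := hl x
    omega

/-- The number of join irreducible and of meet irreducible elements. -/
lemma card_irr {ι : Type} [Fintype ι] (G : GData P ι) {c : P → ℕ} (hc : IsCr c) (b t : P)
    (hb : ∀ x, b ≤ x) (ht : ∀ x, x ≤ t) :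
    ((Finset.univ : Finset P).filter (fun x => (dn c x).card = 1)).card ≤ c b ∧
    ((Finset.univ : Finset P).filter (fun x => (up c x).card = 1)).card ≤ c b := by
  have hg : Gr c := exists_Gr G hc
  have cle : ∀ u, c u ≤ c b := by
    intro u
    rcases lt_or_eq_of_le (hb u) with h | h
    · exact (hg.anti b u h).le
    · rw [h]
  have hmax : ((Finset.univ : Finset P).filter (fun x => ∀ y, ¬ x < y)).card = 1 := by
    rw [Finset.card_eq_one]
    refine ⟨t, ?_⟩
    ext x
    simp only [Finset.mem_filter, Finset.mem_univ, true_and, Finset.mem_singleton]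
    constructor
    · intro h
      by_contra hne
      exact h t (lt_of_le_of_ne (ht x) hne)
    · rintro rfl y hy
      exact absurd (lt_of_lt_of_le hy (ht y)) (lt_irrefl _)
  have hmin : ∀ j, j ≤ c b →
      ((Finset.univ : Finset P).filter (fun x => c x < j ∧ ∀ y, ¬ y < x)).card = 0 := by
    intro j hj
    rw [Finset.card_eq_zero, Finset.filter_eq_empty_iff]
    rintro x _ ⟨h1, h2⟩
    have : b = x := by
      by_contra hne
      exact h2 b (lt_of_le_of_ne (hb x) hne)
    subst this
    omega
  have hcount : ∀ j, j ≤ c b → nn c j + 1 = bb c j ∧ mm c j + 1 = bb c j := by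
    intro j hj
    have h := counts G hc j
    rw [hmax, hmin j hj] at h
    omega
  have e1 : ∑ j ∈ Finset.range (c b + 1), (nn c j + 1) = ∑ j ∈ Finset.range (c b + 1), bb c j :=
    Finset.sum_congr rfl (fun j hj => (hcount j (by rw [Finset.mem_range] at hj; omega)).1)
  have e2 : ∑ j ∈ Finset.range (c b + 1), (mm c j + 1) = ∑ j ∈ Finset.range (c b + 1), bb c j :=
    Finset.sum_congr rfl (fun j hj => (hcount j (by rw [Finset.mem_range] at hj; omega)).2)
  rw [Finset.sum_add_distrib, sum_nn, sum_bb c (c b) cle] at e1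
  rw [Finset.sum_add_distrib, sum_mm c (c b) cle, sum_bb c (c b) cle] at e2
  simp only [Finset.sum_const, Finset.card_range, smul_eq_mul, mul_one] at e1 e2
  constructor
  · -- join irreducibles
    have hd : Disjoint ((Finset.univ : Finset P).filter (fun x => (dn c x).card = 1))
        ((Finset.univ : Finset P).filter (fun x => c x < c b ∧ (dn c x).card = 2)) := by
      rw [Finset.disjoint_left]
      intro x hx hx'
      simp only [Finset.mem_filter, Finset.mem_univ, true_and] at hx hx'
      omega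
    have hsub : ((Finset.univ : Finset P).filter (fun x => (dn c x).card = 1)) ∪
        ((Finset.univ : Finset P).filter (fun x => c x < c b ∧ (dn c x).card = 2)) ⊆
        Finset.univ.erase b := by
      intro x hx
      simp only [Finset.mem_union, Finset.mem_filter, Finset.mem_univ, true_and] at hx
      rw [Finset.mem_erase]
      refine ⟨?_, Finset.mem_univ _⟩
      rintro rfl
      rcases hx with hx | hx
      · obtain ⟨z, hz⟩ := Finset.card_pos.1 (by omega : 0 < (dn c x).card)
        rw [mem_dn] at hz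
        have := cle z
        omega
      · omega
    have h1 := Finset.card_le_card hsub
    rw [Finset.card_union_of_disjoint hd, Finset.card_erase_of_mem (Finset.mem_univ _),
      Finset.card_univ] at h1
    omega
  · have hd : Disjoint ((Finset.univ : Finset P).filter (fun x => (up c x).card = 1))
        ((Finset.univ : Finset P).filter (fun x => 0 < c x ∧ (up c x).card = 2)) := by
      rw [Finset.disjoint_left]
      intro x hx hx'
      simp only [Finset.mem_filter, Finset.mem_univ, true_and] at hx hx'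
      omega
    have hsub : ((Finset.univ : Finset P).filter (fun x => (up c x).card = 1)) ∪
        ((Finset.univ : Finset P).filter (fun x => 0 < c x ∧ (up c x).card = 2)) ⊆
        Finset.univ.erase t := by
      intro x hx
      simp only [Finset.mem_union, Finset.mem_filter, Finset.mem_univ, true_and] at hx
      rw [Finset.mem_erase]
      refine ⟨?_, Finset.mem_univ _⟩
      rintro rfl
      have hpos : 0 < (up c x).card := by omega
      obtain ⟨z, hz⟩ := Finset.card_pos.1 hpos
      rw [mem_up] at hz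
      exact absurd (lt_of_lt_of_le hz.1 (ht z)) (lt_irrefl _)
    have h1 := Finset.card_le_card hsub
    rw [Finset.card_union_of_disjoint hd, Finset.card_erase_of_mem (Finset.mem_univ _),
      Finset.card_univ] at h1
    omega

end

end Pool.Agent.W_MP_448cb3_co
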