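import Mathlib
import Pool.Agent.W_MP_448cb3_co.Extremal

set_option autoImplicit false

/-!
Gaussian semilattices are distributive lattices.
-/

namespace Pool.Agent.W_MP_448cb3_co

open Finset
open scoped Classical

noncomputable section

variable {P : Type} [Fintype P] [PartialOrder P]

/-- A Gaussian poset has as many maximal as minimal elements. -/
lemma card_max_eq_min {ι : Type} [Fintype ι] (G : GData P ι) :
    ((Finset.univ : Finset P).filter (fun x => ∀ y, ¬ x < y)).card =
      ((Finset.univ : Finset P).filter (fun x => ∀ y, ¬ y < x)).card := by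
  obtain ⟨c, hc⟩ := exists_cr (P := P)
  set l : ℕ := ∑ x, c x with hl
  have hle : ∀ x, c x ≤ l := fun x =>
    Finset.single_le_sum (f := c) (fun _ _ => Nat.zero_le _) (Finset.mem_univ x)
  have h := (counts G hc (l + 1)).2
  have h1 : nn c (l + 1) = 0 := by
    unfold nn
    rw [Finset.card_eq_zero, Finset.filter_eq_empty_iff]
    rintro x _ ⟨h1, h2⟩
    obtain ⟨z, hz⟩ := Finset.card_pos.1 (by omega : 0 < (dn c x).card)
    rw [mem_dn] at hz
    have := hle z
    omega
  have h2 : bb c (l + 1) = 0 := by
    unfold bb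
    rw [Finset.card_eq_zero, Finset.filter_eq_empty_iff]
    intro x _ h1
    have := hle x
    omega
  rw [h1, h2, zero_add, zero_add] at h
  rw [h]
  congr 1
  ext x
  simp only [Finset.mem_filter, Finset.mem_univ, true_and, and_iff_right_iff_imp]
  intro _
  have := hle x
  omega

omit [Fintype P] in
lemma finset_lub (h : ∀ x y : P, ∃ z, IsLUB {x, y} z) (S : Finset P) (hS : S.Nonempty) :
    ∃ z, IsLUB (S : Set P) z := by
  induction hS using Finset.Nonempty.cons_induction with
  | singleton a => exact ⟨a, by simp⟩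
  | cons a s ha _ ih =>
    obtain ⟨z, hz⟩ := ih
    obtain ⟨w, hw⟩ := h a z
    refine ⟨w, ?_, ?_⟩
    · intro u hu
      rw [Finset.coe_cons, Set.mem_insert_iff] at hu
      rcases hu with rfl | hu
      · exact hw.1 (by simp)
      · exact (hz.1 hu).trans (hw.1 (by simp))
    · intro u hu
      apply hw.2
      intro v hv
      rw [Set.mem_insert_iff, Set.mem_singleton_iff] at hv
      rcases hv with rfl | rfl
      · exact hu (by simp)
      · apply hz.2
        intro x hx
        exact hu (by simp [Finset.mem_coe.1 hx])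

omit [Fintype P] in
lemma finset_glb (h : ∀ x y : P, ∃ z, IsGLB {x, y} z) (S : Finset P) (hS : S.Nonempty) :
    ∃ z, IsGLB (S : Set P) z := by
  induction hS using Finset.Nonempty.cons_induction with
  | singleton a => exact ⟨a, by simp⟩
  | cons a s ha _ ih =>
    obtain ⟨z, hz⟩ := ih
    obtain ⟨w, hw⟩ := h a z
    refine ⟨w, ?_, ?_⟩
    · intro u hu
      rw [Finset.coe_cons, Set.mem_insert_iff] at hu
      rcases hu with rfl | hu
      · exact hw.1 (by simp)
      · exact (hw.1 (by simp) : w ≤ z).trans (hz.1 hu)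
    · intro u hu
      apply hw.2
      intro v hv
      rw [Set.mem_insert_iff, Set.mem_singleton_iff] at hv
      rcases hv with rfl | rfl
      · exact hu (by simp)
      · apply hz.2
        intro x hx
        exact hu (by simp [Finset.mem_coe.1 hx])

lemma least_of_card_min (h : ((Finset.univ : Finset P).filter (fun x => ∀ y, ¬ y < x)).card = 1) :
    ∃ b : P, ∀ x, b ≤ x := by
  obtain ⟨b, hb⟩ := Finset.card_eq_one.1 h
  refine ⟨b, fun x => ?_⟩
  have hne : ((Finset.univ : Finset P).filter (fun w => w ≤ x)).Nonempty := ⟨x, by simp⟩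
  obtain ⟨m, hm, hmin⟩ := Finset.exists_minimal hne
  simp only [Finset.mem_filter, Finset.mem_univ, true_and] at hm hmin
  have hmm : m ∈ (Finset.univ : Finset P).filter (fun x => ∀ y, ¬ y < x) := by
    simp only [Finset.mem_filter, Finset.mem_univ, true_and]
    intro y hy
    exact absurd hy (not_lt_of_ge (hmin (hy.le.trans hm) hy.le))
  rw [hb, Finset.mem_singleton] at hmm
  rw [← hmm]
  exact hm

lemma greatest_of_card_max (h : ((Finset.univ : Finset P).filter (fun x => ∀ y, ¬ x < y)).card = 1) :
    ∃ t : P, ∀ x, x ≤ t := by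
  obtain ⟨b, hb⟩ := Finset.card_eq_one.1 h
  refine ⟨b, fun x => ?_⟩
  have hne : ((Finset.univ : Finset P).filter (fun w => x ≤ w)).Nonempty := ⟨x, by simp⟩
  obtain ⟨m, hm, hmax⟩ := Finset.exists_maximal hne
  simp only [Finset.mem_filter, Finset.mem_univ, true_and] at hm hmax
  have hmm : m ∈ (Finset.univ : Finset P).filter (fun x => ∀ y, ¬ x < y) := by
    simp only [Finset.mem_filter, Finset.mem_univ, true_and]
    intro y hy
    exact absurd hy (not_lt_of_ge (hmax (hm.trans hy.le) hy.le))
  rw [hb, Finset.mem_singleton] at hmm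
  rw [← hmm]
  exact hm

lemma card_max_of_top (t : P) (ht : ∀ x, x ≤ t) :
    ((Finset.univ : Finset P).filter (fun x => ∀ y, ¬ x < y)).card = 1 := by
  rw [Finset.card_eq_one]
  refine ⟨t, ?_⟩
  ext x
  simp only [Finset.mem_filter, Finset.mem_univ, true_and, Finset.mem_singleton]
  constructor
  · intro h
    by_contra hne
    exact h t (lt_of_le_of_ne (ht x) hne)
  · rintro rfl y hy
    exact absurd (lt_of_lt_of_le hy (ht y)) (lt_irrefl _)

lemma card_min_of_bot (b : P) (hb : ∀ x, b ≤ x) :
    ((Finset.univ : Finset P).filter (fun x => ∀ y, ¬ y < x)).card = 1 := by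
  rw [Finset.card_eq_one]
  refine ⟨b, ?_⟩
  ext x
  simp only [Finset.mem_filter, Finset.mem_univ, true_and, Finset.mem_singleton]
  constructor
  · intro h
    by_contra hne
    exact h b (lt_of_le_of_ne (hb x) (Ne.symm hne))
  · rintro rfl y hy
    exact absurd (lt_of_le_of_lt (hb y) hy) (lt_irrefl _)

/-- A Gaussian semilattice is a bounded lattice. -/
lemma bounded_lattice {ι : Type} [Fintype ι] [Nonempty P] (G : GData P ι)
    (h : (∀ x y : P, ∃ z, IsLUB {x, y} z) ∨ (∀ x y : P, ∃ z, IsGLB {x, y} z)) :
    (∀ x y : P, ∃ z, IsLUB {x, y} z) ∧ (∀ x y : P, ∃ z, IsGLB {x, y} z) ∧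
      (∃ b : P, ∀ x, b ≤ x) ∧ ∃ t : P, ∀ x, x ≤ t := by
  have hcard := card_max_eq_min G
  rcases h with h | h
  · obtain ⟨t, ht⟩ := finset_lub h (Finset.univ : Finset P) Finset.univ_nonempty
    have ht' : ∀ x, x ≤ t := fun x => ht.1 (by simp)
    obtain ⟨b, hb⟩ := least_of_card_min (by rw [← hcard]; exact card_max_of_top t ht')
    refine ⟨h, ?_, ⟨b, hb⟩, ⟨t, ht'⟩⟩
    intro x y
    obtain ⟨z, hz⟩ := finset_lub h ((Finset.univ : Finset P).filter (fun w => w ≤ x ∧ w ≤ y))
      ⟨b, by simp [hb]⟩
    refine ⟨z, ?_, ?_⟩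
    · intro u hu
      apply hz.2
      intro w hw
      simp only [Finset.coe_filter, Finset.mem_univ, true_and, Set.mem_ofPred_eq] at hw
      rw [Set.mem_insert_iff, Set.mem_singleton_iff] at hu
      rcases hu with rfl | rfl
      · exact hw.1
      · exact hw.2
    · intro u hu
      apply hz.1
      simp only [Finset.coe_filter, Finset.mem_univ, true_and, Set.mem_ofPred_eq]
      exact ⟨hu (by simp), hu (by simp)⟩
  · obtain ⟨b, hb⟩ := finset_glb h (Finset.univ : Finset P) Finset.univ_nonempty
    have hb' : ∀ x, b ≤ x := fun x => hb.1 (by simp)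
    obtain ⟨t, ht⟩ := greatest_of_card_max (by rw [hcard]; exact card_min_of_bot b hb')
    refine ⟨?_, h, ⟨b, hb'⟩, ⟨t, ht⟩⟩
    intro x y
    obtain ⟨z, hz⟩ := finset_glb h ((Finset.univ : Finset P).filter (fun w => x ≤ w ∧ y ≤ w))
      ⟨t, by simp [ht]⟩
    refine ⟨z, ?_, ?_⟩
    · intro u hu
      apply hz.2
      intro w hw
      simp only [Finset.coe_filter, Finset.mem_univ, true_and, Set.mem_ofPred_eq] at hw
      rw [Set.mem_insert_iff, Set.mem_singleton_iff] at hu
      rcases hu with rfl | rfl
      · exact hw.1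
      · exact hw.2
    · intro u hu
      apply hz.1
      simp only [Finset.coe_filter, Finset.mem_univ, true_and, Set.mem_ofPred_eq]
      exact ⟨hu (by simp), hu (by simp)⟩

end

/-- Gaussian semilattices are distributive lattices. -/
theorem main (P : Type) [inst : PartialOrder P] [Fintype P] [Nonempty P] (hP : IsGaussian P)
    (h : (∀ x y : P, ∃ z, IsLUB {x, y} z) ∨ (∀ x y : P, ∃ z, IsGLB {x, y} z)) :
    ∃ L : DistribLattice P, ∀ x y : P, L.le x y ↔ x ≤ y := by
  obtain ⟨G⟩ := exists_GData hP
  obtain ⟨hl, hg, ⟨b, hb⟩, ⟨t, ht⟩⟩ := bounded_lattice G h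
  obtain ⟨c, hc⟩ := exists_cr (P := P)
  have hGr : Gr c := exists_Gr G hc
  obtain ⟨hJ, hM⟩ := card_irr G hc b t hb ht
  let L : Lattice P :=
    { inst with
      sup := fun x y => Classical.choose (hl x y)
      inf := fun x y => Classical.choose (hg x y)
      le_sup_left := fun x y => (Classical.choose_spec (hl x y)).1 (by simp)
      le_sup_right := fun x y => (Classical.choose_spec (hl x y)).1 (by simp)
      sup_le := fun x y z h1 h2 => (Classical.choose_spec (hl x y)).2 (by
        intro u hu
        rw [Set.mem_insert_iff, Set.mem_singleton_iff] at hu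
        rcases hu with rfl | rfl
        · exact h1
        · exact h2)
      inf_le_left := fun x y => (Classical.choose_spec (hg x y)).1 (by simp)
      inf_le_right := fun x y => (Classical.choose_spec (hg x y)).1 (by simp)
      le_inf := fun x y z h1 h2 => (Classical.choose_spec (hg y z)).2 (by
        intro u hu
        rw [Set.mem_insert_iff, Set.mem_singleton_iff] at hu
        rcases hu with rfl | rfl
        · exact h1
        · exact h2) }
  refine ⟨@DistribLattice.ofInfSupLe P L ?_, fun x y => Iff.rfl⟩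
  intro x y z
  exact @extremal P L _ c hGr b t hb ht hJ hM x y z

end Pool.Agent.W_MP_448cb3_co
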