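import Mathlib
import Pool.Agent.W_MP_448cb3_co.Main

set_option autoImplicit false

/-!
Local structure of Gaussian posets in terms of covers.
-/

namespace Pool.Agent.W_MP_448cb3_co

open Finset
open scoped Classical

noncomputable section

variable {P : Type} [Fintype P] [PartialOrder P]

lemma dn_eq {ι : Type} [Fintype ι] (G : GData P ι) {c : P → ℕ} (hc : IsCr c) (x : P) :
    {y | y ⋖ x} = (dn c x : Set P) := by
  ext y
  rw [Set.mem_ofPred_eq, Finset.mem_coe, mem_dn]
  constructor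
  · intro h
    exact ⟨h.lt, graded G hc x y h⟩
  · rintro ⟨h1, h2⟩
    refine ⟨h1, fun z hz1 hz2 => ?_⟩
    have h3 := hc.anti y z hz1
    have h4 := hc.anti z x hz2
    omega

lemma up_eq {ι : Type} [Fintype ι] (G : GData P ι) {c : P → ℕ} (hc : IsCr c) (x : P) :
    {y | x ⋖ y} = (up c x : Set P) := by
  ext y
  rw [Set.mem_ofPred_eq, Finset.mem_coe, mem_up]
  constructor
  · intro h
    exact ⟨h.lt, graded G hc y x h⟩
  · rintro ⟨h1, h2⟩
    refine ⟨h1, fun z hz1 hz2 => ?_⟩
    have h3 := hc.anti x z hz1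
    have h4 := hc.anti z y hz2
    omega

end

/-- Local structure of Gaussian posets. -/
theorem covers (P : Type) [PartialOrder P] [Fintype P] (hP : IsGaussian P) :
    ∃ c : P → ℕ, (∀ x : P, c x = 0 ↔ IsMax x) ∧ (∀ x y : P, x ⋖ y → c x = c y + 1) ∧
      (∀ x : P, {y : P | y ⋖ x}.ncard ≤ 2 ∧ {y : P | x ⋖ y}.ncard ≤ 2) ∧
      ∀ j : ℕ, {x : P | c x + 1 = j ∧ {y : P | y ⋖ x}.ncard = 2}.ncard + {x : P | IsMax x}.ncard =
          {x : P | c x = j}.ncard + {x : P | c x < j ∧ IsMin x}.ncard ∧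
        {x : P | c x = j + 1 ∧ {y : P | x ⋖ y}.ncard = 2}.ncard + {x : P | IsMax x}.ncard =
          {x : P | c x = j}.ncard + {x : P | c x < j ∧ IsMin x}.ncard := by
  classical
  obtain ⟨G⟩ := exists_GData hP
  obtain ⟨c, hc⟩ := exists_cr (P := P)
  have hGr : Gr c := exists_Gr G hc
  have e1 : ∀ x, {y | y ⋖ x}.ncard = (dn c x).card := fun x => by
    rw [dn_eq G hc x, Set.ncard_coe_finset]
  have e2 : ∀ x, {y | x ⋖ y}.ncard = (up c x).card := fun x => by
    rw [up_eq G hc x, Set.ncard_coe_finset]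
  have e3 : ∀ Q : P → Prop, {x | Q x}.ncard = ((Finset.univ : Finset P).filter Q).card := by
    intro Q
    rw [← Set.ncard_coe_finset]
    congr 1
    ext x
    simp
  have e4 : ∀ x : P, IsMax x ↔ ∀ y, ¬ x < y := fun x => isMax_iff_forall_not_lt
  have e5 : ∀ x : P, IsMin x ↔ ∀ y, ¬ y < x := fun x => isMin_iff_forall_not_lt
  refine ⟨c, ?_, ?_, ?_, ?_⟩
  · intro x
    rw [e4]
    constructor
    · intro h y hxy
      have := hc.anti x y hxy
      omega
    · intro h
      by_contra hne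
      obtain ⟨y, hy⟩ := hGr.step x (by omega)
      exact h y hy
  · intro x y hxy
    exact graded G hc y x hxy
  · intro x
    rw [e1, e2]
    exact ⟨card_dn_le_two G hc x, card_up_le_two G hc x⟩
  · intro j
    simp only [e1, e2]
    rw [e3, e3, e3, e3, e3]
    simp only [e4, e5]
    have h := counts G hc j
    unfold nn mm bb at h
    obtain ⟨h1, h2⟩ := h
    refine ⟨?_, ?_⟩
    · convert h2
    · rw [h1] at h2
      convert h2

end Pool.Agent.W_MP_448cb3_co
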