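import Mathlib
import Pool.Agent.W_MP_448cb3_co.Defs
import Pool.Agent.W_MP_448cb3_co.Main

set_option autoImplicit false

/-!
A finite nonempty Gaussian poset in which every two elements have a least upper bound, or every
two elements have a greatest lower bound, is a distributive lattice.
-/

namespace Pool.Agent.W_MP_448cb3_co.SemilatticeOld

open Pool.Agent.W_MP_448cb3_co

theorem result (P : Type) [PartialOrder P] [Fintype P] [Nonempty P] (hP : IsGaussian P)
    (h : (∀ x y : P, ∃ z, IsLUB {x, y} z) ∨ (∀ x y : P, ∃ z, IsGLB {x, y} z)) :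
    ∃ L : DistribLattice P, ∀ x y : P, L.le x y ↔ x ≤ y :=
  main P hP h

end Pool.Agent.W_MP_448cb3_co.SemilatticeOld
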